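import Pool.Agent.R210.Per0
import Pool.Agent.TH340.PS.Ker2

/-!
Correlations of smooth periodic functions and their averages over balls.
-/

open MeasureTheory Set Filter Topology
open scoped ContDiff

namespace Pool.Agent.U570.VP

open H459R3.NS
open Pool.Agent.TH340.PS (bmp bmp_cont bmp_compact bmp_nonneg bmp_neg bmp_zero rho sq_le_rho ibp_bmp
  int_bmp pd_coord rho_nonneg rho_neg rho_cont)

/-- the correlation of two periodic functions -/
noncomputable def cor (q g : V → ℝ) (y : V) : ℝ := ∫ x in cube, q x * g (x + y)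

theorem bdd_of_per {g : V → ℝ} (hp : Per g) (hc : Continuous g) : ∃ C, 0 ≤ C ∧ ∀ x, |g x| ≤ C := by
  obtain ⟨C, hC⟩ := isCompact_Icc.exists_bound_of_continuousOn (s := cube) hc.continuousOn
  refine ⟨max C 0, le_max_right _ _, fun x => ?_⟩
  have h := hp.int (fun i => -⌊x i⌋) x
  rw [← h, ← Real.norm_eq_abs]
  refine (hC _ ?_).trans (le_max_left _ _)
  constructor
  · intro i
    have := Int.floor_le (x i)
    simp only [Pi.zero_apply, Pi.add_apply, Int.cast_neg]
    linarith
  · intro i
    have := (Int.lt_floor_add_one (x i)).le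
    simp only [Pi.one_apply, Pi.add_apply, Int.cast_neg]
    linarith

theorem fderiv_apply_eq {g : V → ℝ} (x v : V) : fderiv ℝ g x v = ∑ j, v j * pd j g x := by
  have h : v = ∑ j, v j • (Pi.single j (1 : ℝ) : V) := by
    funext i
    simp [Finset.sum_apply, Pi.single_apply]
  conv_lhs => rw [h]
  rw [map_sum]
  refine Finset.sum_congr rfl fun j _ => ?_
  rw [map_smul, smul_eq_mul]
  rfl

theorem fderiv_bdd {g : V → ℝ} (hg : SP g) : ∃ C, 0 ≤ C ∧ ∀ x, ‖fderiv ℝ g x‖ ≤ C := by
  have h : ∀ j, ∃ C, 0 ≤ C ∧ ∀ x, |pd j g x| ≤ C := fun j =>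
    bdd_of_per (hg.pd j).per (hg.pd j).cont
  choose C hC0 hC using h
  refine ⟨∑ j, C j, Finset.sum_nonneg fun j _ => hC0 j, fun x => (fderiv_norm_le x).trans ?_⟩
  exact Finset.sum_le_sum fun j _ => hC j x

theorem SP.shift {g : V → ℝ} (hg : SP g) (y : V) : SP (fun x => g (x + y)) where
  smooth := hg.smooth.comp (contDiff_id.add contDiff_const)
  per := fun i x => by
    have h : x + Pi.single i 1 + y = x + y + Pi.single i 1 := by abel
    show g (x + Pi.single i 1 + y) = g (x + y)
    rw [h, hg.per i]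

theorem cor_hasFDerivAt {q g : V → ℝ} (hq : SP q) (hg : SP g) (y : V) :
    HasFDerivAt (cor q g)
      (∑ j, cor q (pd j g) y • (ContinuousLinearMap.proj j : V →L[ℝ] ℝ)) y := by
  obtain ⟨C1, hC10, hC1⟩ := bdd_of_per hq.per hq.cont
  obtain ⟨C2, hC20, hC2⟩ := fderiv_bdd hg
  have hfc : Continuous (fderiv ℝ g) := hg.smooth.continuous_fderiv (by simp)
  have hF' : Continuous fun x => q x • fderiv ℝ g (x + y) :=
    hq.cont.smul (hfc.comp (continuous_id.add continuous_const))
  have := Pool.Agent.W268.NS.cube_fin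
  have key : HasFDerivAt (fun y => ∫ x in cube, q x * g (x + y))
      (∫ x in cube, q x • fderiv ℝ g (x + y)) y := by
    refine hasFDerivAt_integral_of_dominated_of_fderiv_le (𝕜 := ℝ) (μ := volume.restrict cube)
      (F := fun y x => q x * g (x + y)) (F' := fun y x => q x • fderiv ℝ g (x + y))
      (bound := fun _ => C1 * C2) (s := univ) Filter.univ_mem ?_ ?_ ?_ ?_ ?_ ?_
    · exact Eventually.of_forall fun z => (hq.mul (SP.shift hg z)).cont.aestronglyMeasurable
    · exact (hq.mul (SP.shift hg y)).int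
    · exact hF'.aestronglyMeasurable
    · refine Eventually.of_forall fun x z _ => ?_
      rw [norm_smul, Real.norm_eq_abs]
      exact mul_le_mul (hC1 x) (hC2 _) (norm_nonneg _) hC10
    · exact integrable_const _
    · refine Eventually.of_forall fun x z _ => ?_
      have h1 : HasFDerivAt g (fderiv ℝ g (x + z)) (x + z) := (hg.diff (x + z)).hasFDerivAt
      have h2 : HasFDerivAt (fun z => x + z) (ContinuousLinearMap.id ℝ V) z :=
        (hasFDerivAt_id z).const_add x
      have h3 := (h1.comp z h2).const_mul (q x)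
      simpa using h3
  have e : (∫ x in cube, q x • fderiv ℝ g (x + y))
      = ∑ j, cor q (pd j g) y • (ContinuousLinearMap.proj j : V →L[ℝ] ℝ) := by
    ext v
    rw [ContinuousLinearMap.integral_apply (integrableOn_cube hF')]
    simp only [smul_apply, smul_eq_mul, sum_apply,
      ContinuousLinearMap.proj_apply]
    have e1 : ∀ x, q x * fderiv ℝ g (x + y) v = ∑ j, v j * (q x * pd j g (x + y)) := by
      intro x
      rw [fderiv_apply_eq, Finset.mul_sum]
      exact Finset.sum_congr rfl fun j _ => by ring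
    simp_rw [e1]
    rw [integral_finsetSum _ fun j _ => ((hq.mul (SP.shift (hg.pd j) y)).int.const_mul _)]
    refine Finset.sum_congr rfl fun j _ => ?_
    rw [integral_const_mul, mul_comm]
    rfl
  rw [← e]
  exact key

theorem pd_cor {q g : V → ℝ} (hq : SP q) (hg : SP g) (j : Fin 3) :
    pd j (cor q g) = cor q (pd j g) := by
  funext y
  unfold pd
  rw [(cor_hasFDerivAt hq hg y).fderiv]
  simp [Pi.single_apply]
  rfl

theorem cor_contDiff {q : V → ℝ} (hq : SP q) (n : ℕ) : ∀ {g : V → ℝ}, SP g →
    ContDiff ℝ n (cor q g) := by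
  induction n with
  | zero =>
    intro g hg
    rw [Nat.cast_zero, contDiff_zero]
    exact continuous_iff_continuousAt.2 fun y => (cor_hasFDerivAt hq hg y).continuousAt
  | succ n ih =>
    intro g hg
    rw [Nat.cast_succ, contDiff_succ_iff_fderiv]
    refine ⟨fun y => (cor_hasFDerivAt hq hg y).differentiableAt, by simp, ?_⟩
    have e : fderiv ℝ (cor q g) = fun y => ∑ j, cor q (pd j g) y •
        (ContinuousLinearMap.proj j : V →L[ℝ] ℝ) := funext fun y => (cor_hasFDerivAt hq hg y).fderiv
    rw [e]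
    exact ContDiff.sum fun j _ => (ih (hg.pd j)).smul contDiff_const

theorem sp_cor {q g : V → ℝ} (hq : SP q) (hg : SP g) : SP (cor q g) where
  smooth := contDiff_infty.2 fun n => cor_contDiff hq n hg
  per := fun i y => by
    unfold cor
    congr 1
    funext x
    rw [← add_assoc, hg.per i]

theorem pd_dil {f : V → ℝ} (hf : Differentiable ℝ f) (r : ℝ) (j : Fin 3) (z : V) :
    pd j (fun z => f (r • z)) z = r * pd j f (r • z) := by
  unfold pd
  have h1 : HasFDerivAt f (fderiv ℝ f (r • z)) (r • z) := (hf _).hasFDerivAt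
  have h2 : HasFDerivAt (fun z : V => r • z) (r • ContinuousLinearMap.id ℝ V) z :=
    (hasFDerivAt_id z).const_smul r
  have h3 : HasFDerivAt (fun z => f (r • z))
      ((fderiv ℝ f (r • z)).comp (r • ContinuousLinearMap.id ℝ V)) z := h1.comp z h2
  rw [h3.fderiv]
  simp

theorem contDiff_dil {f : V → ℝ} (hf : ContDiff ℝ ∞ f) (r : ℝ) :
    ContDiff ℝ ∞ fun z : V => f (r • z) := by
  have h : ContDiff ℝ ∞ fun z : V => r • z := contDiff_const_smul r
  exact hf.comp h

theorem SP.differentiable {f : V → ℝ} (hf : SP f) : Differentiable ℝ f := fun x => hf.diff x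

/-- integration by parts of second derivatives -/
theorem ibp_two {f : V → ℝ} (hf : SP f) {r : ℝ} (hr : r ≠ 0) (i k : Fin 3) :
    ∫ z, bmp 3 1 z * pd i (pd k f) (r • z) = 6 / r ^ 2 * (4 * (∫ z, bmp 1 1 z * (z i * z k * f (r • z)))
      - if i = k then ∫ z, bmp 2 1 z * f (r • z) else 0) := by
  have hfc := (contDiff_dil hf.smooth r).continuous
  have hkc := (contDiff_dil (hf.pd k).smooth r).continuous
  have h1 := ibp_bmp 1 1 (f := fun z => pd k f (r • z))
    ((contDiff_dil (hf.pd k).smooth r).of_le (by norm_cast)) i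
  simp_rw [pd_dil (SP.differentiable (hf.pd k)) r i] at h1
  rw [show (1 + 2 : ℕ) = 3 from rfl, show (1 + 1 : ℕ) = 2 from rfl] at h1
  have h2 := ibp_bmp 0 1 (f := fun z => z i * f (r • z))
    (((contDiff_apply ℝ ℝ i).mul (contDiff_dil hf.smooth r)).of_le (by norm_cast)) k
  rw [show (0 + 2 : ℕ) = 2 from rfl, show (0 + 1 : ℕ) = 1 from rfl] at h2
  have e2 : ∀ z : V, pd k (fun z : V => z i * f (r • z)) z
      = (if i = k then 1 else 0) * f (r • z) + z i * (r * pd k f (r • z)) := by
    intro z
    have a1 : HasFDerivAt (fun z : V => z i) (ContinuousLinearMap.proj i : V →L[ℝ] ℝ) z :=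
      (ContinuousLinearMap.proj (R := ℝ) (φ := fun _ : Fin 3 => ℝ) i).hasFDerivAt
    have a2 : HasFDerivAt (fun z : V => f (r • z)) _ z :=
      ((contDiff_dil hf.smooth r).differentiable (by simp) z).hasFDerivAt
    have a3 := pd_dil (SP.differentiable hf) r k z
    have a4 := pd_coord i k z
    unfold pd at a3 a4 ⊢
    rw [a1.fderiv] at a4
    have a5 : HasFDerivAt (fun z : V => z i * f (r • z)) _ z := a1.mul a2
    rw [a5.fderiv]
    simp only [add_apply, smul_apply, smul_eq_mul, a3, a4]
    ring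
  simp_rw [e2] at h2
  have i1 : Integrable fun z : V => bmp 2 1 z * ((if i = k then 1 else 0) * f (r • z)) :=
    int_bmp 1 1 (f := fun z => (if i = k then 1 else 0) * f (r • z)) (continuous_const.mul hfc)
  have i2 : Integrable fun z : V => bmp 2 1 z * (z i * (r * pd k f (r • z))) :=
    int_bmp 1 1 (f := fun z => z i * (r * pd k f (r • z)))
      ((continuous_apply i).mul (continuous_const.mul hkc))
  have e3 : ∫ z, bmp 2 1 z * ((if i = k then 1 else 0) * f (r • z) + z i * (r * pd k f (r • z)))
      = (∫ z, bmp 2 1 z * ((if i = k then 1 else 0) * f (r • z)))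
        + ∫ z, bmp 2 1 z * (z i * (r * pd k f (r • z))) := by
    rw [← integral_add i1 i2]
    congr 1
    funext z
    ring
  rw [e3] at h2
  have e4 : (∫ z, bmp 2 1 z * ((if i = k then 1 else 0) * f (r • z)))
      = if i = k then ∫ z, bmp 2 1 z * f (r • z) else 0 := by
    split_ifs with h
    · simp
    · simp
  have e5 : ∫ z, bmp 2 1 z * (z i * (r * pd k f (r • z)))
      = r * ∫ z, bmp 2 1 z * (z i * pd k f (r • z)) := by
    rw [← integral_const_mul]
    congr 1
    funext z
    ring
  have e6 : ∫ z, bmp 3 1 z * (r * pd i (pd k f) (r • z))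
      = r * ∫ z, bmp 3 1 z * pd i (pd k f) (r • z) := by
    rw [← integral_const_mul]
    congr 1
    funext z
    ring
  have e7 : ∫ z : V, bmp 1 1 z * (z k * (z i * f (r • z))) = ∫ z, bmp 1 1 z * (z i * z k * f (r • z)) := by
    congr 1
    funext z
    ring
  rw [e4, e5, e7] at h2
  rw [e6] at h1
  push_cast at h1 h2
  rw [div_mul_eq_mul_div, eq_div_iff (pow_ne_zero 2 hr)]
  linear_combination r * h1 + 6 * h2

end Pool.Agent.U570.VP
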