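import Pool.Agent.U570.VP.Sym

/-!
Averages over balls of products, and the bound of the far part.
-/

open MeasureTheory Set Filter Topology
open scoped ContDiff Pointwise

namespace Pool.Agent.U570.VP

open H459R3.NS
open Pool.Agent.TH340.PS (bmp bmp_cont bmp_compact bmp_nonneg bmp_neg bmp_zero rho sq_le_rho ibp_bmp
  int_bmp pd_coord rho_nonneg rho_neg rho_cont)
open Pool.Agent.W268.NS

/-- Cauchy-Schwarz -/
theorem cs_fin {α : Type*} [MeasurableSpace α] {μ : Measure α} [IsFiniteMeasure μ] {h : α → ℝ}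
    (h1 : Integrable h μ) (h2 : Integrable (fun x => h x ^ 2) μ) :
    (∫ x, |h x| ∂μ) ^ 2 ≤ μ.real univ * ∫ x, h x ^ 2 ∂μ := by
  set m := ∫ x, |h x| ∂μ with hm
  set M := μ.real univ with hM
  have hM0 : 0 ≤ M := measureReal_nonneg
  have ha : Integrable (fun x => |h x|) μ := h1.abs
  have key : 0 ≤ ∫ x, (M * |h x| - m) ^ 2 ∂μ := integral_nonneg fun x => sq_nonneg _
  have e : ∀ x, (M * |h x| - m) ^ 2 = (M ^ 2 * h x ^ 2 - 2 * M * m * |h x|) + m ^ 2 := by
    intro x
    rw [sub_sq, mul_pow, sq_abs]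
    ring
  simp_rw [e] at key
  have i1 : Integrable (fun x => M ^ 2 * h x ^ 2) μ := h2.const_mul _
  have i2 : Integrable (fun x => 2 * M * m * |h x|) μ := ha.const_mul _
  have i3 : Integrable (fun x => M ^ 2 * h x ^ 2 - 2 * M * m * |h x|) μ := i1.sub i2
  rw [integral_add i3 (integrable_const _),
    integral_sub i1 i2, integral_const_mul, integral_const_mul,
    integral_const, ← hm, smul_eq_mul, ← hM] at key
  rcases hM0.eq_or_lt with h0 | h0
  · have hμ : μ = 0 := by
      have : μ univ = 0 := by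
        have h3 : μ.real univ = 0 := by rw [← hM, ← h0]
        rw [measureReal_def, ENNReal.toReal_eq_zero_iff] at h3
        exact h3.resolve_right (measure_ne_top _ _)
      exact Measure.measure_univ_eq_zero.1 this
    rw [hm, hμ]
    simp
  · have h4 : 0 ≤ M * (M * (∫ x, h x ^ 2 ∂μ) - m ^ 2) := by nlinarith
    have h5 := nonneg_of_mul_nonneg_right h4 h0
    linarith

theorem cont_shift (x : V) (r : ℝ) : Continuous fun z : V => x + r • z := by fun_prop

theorem cont_pair (r : ℝ) : Continuous fun p : V × V => p.2 + r • p.1 := by fun_prop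

/-- the box `[-1, 1]³` -/
def bx : Set V := Icc (-1) 1

theorem bx_vol : volume bx = 8 := by
  unfold bx
  rw [Real.volume_Icc_pi]
  simp only [Pi.neg_apply, Pi.one_apply, Finset.prod_const, Finset.card_univ, Fintype.card_fin]
  norm_num

theorem bx_cpt : IsCompact bx := isCompact_Icc

theorem bx_meas : MeasurableSet bx := measurableSet_Icc

theorem bmp_outside {n : ℕ} {z : V} (hz : z ∉ bx) : bmp (n + 1) 1 z = 0 := by
  by_contra h
  refine hz ⟨fun i => ?_, fun i => ?_⟩
  · have := (abs_le.1 (abs_le_of_bmp h i)).1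
    simpa using this
  · have := (abs_le.1 (abs_le_of_bmp h i)).2
    simpa using this

theorem bmp_le_one {n : ℕ} (z : V) : bmp n 1 z ≤ 1 := by
  unfold bmp
  refine pow_le_one₀ (le_max_right _ _) (max_le ?_ zero_le_one)
  have := rho_nonneg z
  linarith

theorem swap {F : V → V → ℝ} (hF : Continuous (fun z : V × V => F z.1 z.2)) {K : Set V}
    (hK : IsCompact K) (h0 : ∀ x ∉ K, ∀ y ∈ cube, F x y = 0) :
    ∫ x, ∫ y in cube, F x y = ∫ y in cube, ∫ x, F x y := by
  have h1 : IntegrableOn (fun z : V × V => F z.1 z.2) (univ ×ˢ cube) (volume.prod volume) := by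
    have h2 : IntegrableOn (fun z : V × V => F z.1 z.2) (K ×ˢ cube) (volume.prod volume) :=
      hF.continuousOn.integrableOn_compact (hK.prod isCompact_Icc)
    refine h2.of_forall_sdiff_eq_zero (MeasurableSet.univ.prod measurableSet_Icc) ?_
    rintro ⟨x, y⟩ ⟨⟨-, hy⟩, hn⟩
    refine h0 x (fun hx => hn ⟨hx, hy⟩) y hy
  have h2 : Integrable (fun z : V × V => F z.1 z.2) (volume.prod (volume.restrict cube)) := by
    rw [IntegrableOn, ← Measure.prod_restrict, Measure.restrict_univ] at h1
    exact h1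
  exact integral_integral_swap h2

theorem int_bx_scale {g : V → ℝ} (hg : Continuous g) (hp : Per g) (x : V) {r : ℝ} (hr : 0 < r)
    (hr2 : r ≤ 1 / 2) :
    ∫ z in bx, g (x + r • z) ^ 2 ≤ (r ^ 3)⁻¹ * ∫ y in cube, g y ^ 2 := by
  have h1 := Measure.setIntegral_comp_smul_of_pos (volume : Measure V) (fun y => g (x + y) ^ 2)
    (s := bx) hr
  have h2 : Module.finrank ℝ V = 3 := by simp
  rw [h2, smul_eq_mul] at h1
  rw [h1]
  refine mul_le_mul_of_nonneg_left ?_ (by positivity)
  have hc : Continuous fun y : V => g (x + y) ^ 2 := (hg.comp (continuous_const.add continuous_id)).pow 2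
  have hsub : r • bx ⊆ Icc (fun _ => -(1 / 2) : V) (fun _ => 1 / 2) := by
    rintro y ⟨z, hz, rfl⟩
    refine ⟨fun i => ?_, fun i => ?_⟩
    · have h3 := hz.1 i
      simp only [Pi.neg_apply, Pi.one_apply] at h3
      simp only [Pi.smul_apply, smul_eq_mul]
      nlinarith
    · have h3 := hz.2 i
      simp only [Pi.one_apply] at h3
      simp only [Pi.smul_apply, smul_eq_mul]
      nlinarith
  have h3 : ∫ y in r • bx, g (x + y) ^ 2
      ≤ ∫ y in Icc (fun _ => -(1 / 2) : V) (fun _ => 1 / 2), g (x + y) ^ 2 :=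
    setIntegral_mono_set hc.continuousOn.integrableOn_Icc
      (Eventually.of_forall fun y => sq_nonneg _) hsub.eventuallyLE
  refine h3.trans (le_of_eq ?_)
  have hmp2 : MeasurePreserving (fun y : V => y + fun _ => -(1 / 2)) volume volume :=
    measurePreserving_add_right _ _
  have h4 := hmp2.setIntegral_preimage_emb (measurableEmbedding_addRight _)
    (fun y => g (x + y) ^ 2) (Icc (fun _ => -(1 / 2) : V) (fun _ => 1 / 2))
  have h5 : (fun y : V => y + fun _ => -(1 / 2)) ⁻¹' (Icc (fun _ => -(1 / 2) : V) (fun _ => 1 / 2))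
      = cube := by
    ext y
    simp only [mem_preimage, cube, mem_Icc, Pi.le_def, Pi.add_apply, Pi.zero_apply, Pi.one_apply]
    constructor
    · rintro ⟨ha, hb⟩
      exact ⟨fun i => by linarith [ha i], fun i => by linarith [hb i]⟩
    · rintro ⟨ha, hb⟩
      exact ⟨fun i => by linarith [ha i], fun i => by linarith [hb i]⟩
  rw [h5] at h4
  rw [← h4]
  have hp2 : Per fun y => g y ^ 2 := fun i y => by simp only [hp i y]
  rw [← Pool.Agent.R210.int_shift hp2 (x + fun _ => -(1 / 2))]
  congr 1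
  funext y
  congr 2
  abel

/-- the inner integral -/
theorem inner_le {g : V → ℝ} (hg : Continuous g) (hp : Per g) (x : V) {r : ℝ} (hr : 0 < r)
    (hr2 : r ≤ 1 / 2) :
    ∫ z, bmp 1 1 z * |g (x + r • z)| ≤ 3 * r ^ (-(3 / 2) : ℝ) * nrm g := by
  have hc : Continuous fun z : V => g (x + r • z) := hg.comp (cont_shift x r)
  have e1 : ∫ z, bmp 1 1 z * |g (x + r • z)| = ∫ z in bx, bmp 1 1 z * |g (x + r • z)| := by
    refine (setIntegral_eq_integral_of_forall_compl_eq_zero fun z hz => ?_).symm
    rw [bmp_outside (n := 0) hz, zero_mul]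
  have e2 : ∫ z in bx, bmp 1 1 z * |g (x + r • z)| ≤ ∫ z in bx, |g (x + r • z)| := by
    refine setIntegral_mono_on ?_ ?_ bx_meas fun z _ => ?_
    · exact ((bmp_cont _ _).mul hc.abs).continuousOn.integrableOn_compact bx_cpt
    · exact hc.abs.continuousOn.integrableOn_compact bx_cpt
    · exact mul_le_of_le_one_left (abs_nonneg _) (bmp_le_one z)
  have hfin : IsFiniteMeasure (volume.restrict bx) := ⟨by
    rw [Measure.restrict_apply_univ, bx_vol]; exact ENNReal.ofNat_lt_top⟩
  have e3 := cs_fin (μ := volume.restrict bx) (h := fun z => g (x + r • z))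
    (hc.continuousOn.integrableOn_compact bx_cpt)
    ((hc.pow 2).continuousOn.integrableOn_compact bx_cpt)
  have hvol : (volume.restrict bx).real univ = 8 := by
    rw [measureReal_def, Measure.restrict_apply_univ, bx_vol]; simp
  rw [hvol] at e3
  have e4 := int_bx_scale hg hp x hr hr2
  have e5 : (∫ z in bx, |g (x + r • z)|) ^ 2 ≤ (3 * r ^ (-(3 / 2) : ℝ) * nrm g) ^ 2 := by
    refine e3.trans ?_
    have h1 : (3 * r ^ (-(3 / 2) : ℝ) * nrm g) ^ 2 = 9 * ((r ^ 3)⁻¹ * ∫ y in cube, g y ^ 2) := by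
      rw [mul_pow, mul_pow, nrm_sq, ← Real.rpow_natCast (r ^ (-(3 / 2) : ℝ)) 2,
        ← Real.rpow_mul hr.le]
      have : (-(3 / 2) : ℝ) * (2 : ℕ) = -(3 : ℕ) := by norm_num
      rw [this, Real.rpow_neg hr.le, Real.rpow_natCast]
      ring
    rw [h1]
    have h2 : 0 ≤ (r ^ 3)⁻¹ * ∫ y in cube, g y ^ 2 :=
      mul_nonneg (by positivity) (integral_nonneg fun _ => sq_nonneg _)
    linarith
  rw [e1]
  refine e2.trans ?_
  have h0 : 0 ≤ 3 * r ^ (-(3 / 2) : ℝ) * nrm g :=
    mul_nonneg (mul_nonneg (by norm_num) (Real.rpow_nonneg hr.le _)) (nrm_nonneg g)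
  exact (pow_le_pow_iff_left₀ (integral_nonneg fun _ => abs_nonneg _) h0 two_ne_zero).1 e5

/-- averages of products -/
theorem tb {f g : V → ℝ} (hf : Continuous f) (hg : Continuous g) (hp : Per g) {r : ℝ} (hr : 0 < r)
    (hr2 : r ≤ 1 / 2) :
    ∫ z, bmp 1 1 z * ∫ x in cube, |f x| * |g (x + r • z)|
      ≤ (∫ x in cube, |f x|) * (3 * r ^ (-(3 / 2) : ℝ) * nrm g) := by
  have hc : Continuous fun p : V × V => g (p.2 + r • p.1) := hg.comp (cont_pair r)
  have e1 : ∫ z, bmp 1 1 z * ∫ x in cube, |f x| * |g (x + r • z)|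
      = ∫ z, ∫ x in cube, bmp 1 1 z * (|f x| * |g (x + r • z)|) := by
    congr 1
    funext z
    rw [integral_const_mul]
  have e2 := swap (F := fun z x => bmp 1 1 z * (|f x| * |g (x + r • z)|)) (K := bx)
    (((bmp_cont _ _).comp continuous_fst).mul
      ((hf.abs.comp continuous_snd).mul hc.abs)) bx_cpt
    (fun z hz x _ => by rw [bmp_outside (n := 0) hz, zero_mul])
  rw [e1, e2, ← integral_mul_const]
  have hb : ∀ x, ∫ z, bmp 1 1 z * (|f x| * |g (x + r • z)|)
      = |f x| * ∫ z, bmp 1 1 z * |g (x + r • z)| := by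
    intro x
    rw [← integral_const_mul]
    congr 1
    funext z
    ring
  simp_rw [hb]
  have hle : ∀ x, |f x| * ∫ z, bmp 1 1 z * |g (x + r • z)|
      ≤ |f x| * (3 * r ^ (-(3 / 2) : ℝ) * nrm g) := fun x =>
    mul_le_mul_of_nonneg_left (inner_le hg hp x hr hr2) (abs_nonneg _)
  have hi : IntegrableOn (fun x => |f x| * (3 * r ^ (-(3 / 2) : ℝ) * nrm g)) cube :=
    integrableOn_cube (hf.abs.mul continuous_const)
  refine integral_mono_of_nonneg (Eventually.of_forall fun x => ?_) hi
    (Eventually.of_forall hle)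
  exact mul_nonneg (abs_nonneg _) (integral_nonneg fun z => mul_nonneg (bmp_nonneg _ _ _) (abs_nonneg _))

section

variable {v : V → V} (hv : ∀ i, SP (fun y => v y i))

include hv in
/-- the far part -/
theorem psi_far {r : ℝ} (hr : 0 < r) (hr2 : r ≤ 1 / 2) :
    |psi v r| ≤ 108 * r ^ (-(5 / 2) : ℝ) * Real.sqrt (energy v) * ∑ i, ∫ x in cube, W v i x ^ 2 := by
  have hr0 : r ≠ 0 := hr.ne'
  set a2 := ∑ i, ∫ x in cube, W v i x ^ 2 with ha2
  have hcor : ∀ i j, SP (cor (qq v i j) (fun y => v y j)) := fun i j => sp_cor (spq hv i j) (hv j)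
  have hterm : ∀ i j, |∫ z, bmp 2 1 z * cor (qq v i j) (pd i (fun y => v y j)) (r • z)|
      ≤ 12 * r ^ (-(5 / 2) : ℝ) * Real.sqrt (energy v) * a2 := by
    intro i j
    have h1 := ibp_bmp 0 1 (f := fun z => cor (qq v i j) (fun y => v y j) (r • z))
      ((contDiff_dil (hcor i j).smooth r).of_le (by norm_cast)) i
    simp_rw [pd_dil (SP.differentiable (hcor i j)) r i, pd_cor (spq hv i j) (hv j)] at h1
    rw [show (0 + 2 : ℕ) = 2 from rfl, show (0 + 1 : ℕ) = 1 from rfl] at h1
    have e6 : ∫ z, bmp 2 1 z * (r * cor (qq v i j) (pd i (fun y => v y j)) (r • z))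
        = r * ∫ z, bmp 2 1 z * cor (qq v i j) (pd i (fun y => v y j)) (r • z) := by
      rw [← integral_const_mul]
      congr 1
      funext z
      ring
    rw [e6] at h1
    push_cast at h1
    have h2 : ∫ z, bmp 2 1 z * cor (qq v i j) (pd i (fun y => v y j)) (r • z)
        = 4 / r * ∫ z, bmp 1 1 z * (z i * cor (qq v i j) (fun y => v y j) (r • z)) := by
      rw [div_mul_eq_mul_div, eq_div_iff hr0]
      linarith
    rw [h2, abs_mul, abs_of_pos (by positivity : 0 < 4 / r)]
    have hcc : Continuous fun z : V => cor (qq v i j) (fun y => v y j) (r • z) :=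
      (contDiff_dil (hcor i j).smooth r).continuous
    have h3 : |∫ z, bmp 1 1 z * (z i * cor (qq v i j) (fun y => v y j) (r • z))|
        ≤ ∫ z, bmp 1 1 z * ∫ x in cube, |qq v i j x| * |v (x + r • z) j| := by
      have h4 := abs_integral_le_integral_abs (μ := (volume : Measure V))
        (f := fun z => bmp 1 1 z * (z i * cor (qq v i j) (fun y => v y j) (r • z)))
      refine h4.trans ?_
      have hint : Integrable fun z : V => bmp 1 1 z *
          ∫ x in cube, |qq v i j x| * |v (x + r • z) j| := by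
        refine int_bmp 0 1 (f := fun z => ∫ x in cube, |qq v i j x| * |v (x + r • z) j|) ?_
        have hj : Continuous fun p : V × V => |qq v i j p.2| * |v (p.2 + r • p.1) j| :=
          ((spq hv i j).cont.comp continuous_snd).abs.mul
            ((hv j).cont.comp (cont_pair r)).abs
        exact continuous_parametric_integral_of_continuous hj isCompact_Icc
      refine integral_mono_of_nonneg (Eventually.of_forall fun z => abs_nonneg _) hint
        (Eventually.of_forall fun z => ?_)
      show |bmp 1 1 z * (z i * cor (qq v i j) (fun y => v y j) (r • z))| ≤ _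
      rw [abs_mul, abs_of_nonneg (bmp_nonneg _ _ _)]
      by_cases h0 : bmp 1 1 z = 0
      · show _ ≤ bmp 1 1 z * _
        rw [h0, zero_mul, zero_mul]
      refine mul_le_mul_of_nonneg_left ?_ (bmp_nonneg _ _ _)
      rw [abs_mul]
      have h5 : |cor (qq v i j) (fun y => v y j) (r • z)|
          ≤ ∫ x in cube, |qq v i j x| * |v (x + r • z) j| := by
        unfold cor
        refine (abs_integral_le_integral_abs).trans (le_of_eq ?_)
        congr 1
        funext x
        rw [abs_mul]
      calc |z i| * |cor (qq v i j) (fun y => v y j) (r • z)|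
          ≤ 1 * ∫ x in cube, |qq v i j x| * |v (x + r • z) j| :=
            mul_le_mul (abs_le_of_bmp h0 i) h5 (abs_nonneg _) zero_le_one
        _ = _ := one_mul _
    have h6 := tb (spq hv i j).cont (hv j).cont (hv j).per hr hr2
    have h7 : ∫ x in cube, |qq v i j x| ≤ a2 := by
      have hi : ∀ k, IntegrableOn (fun x => W v k x ^ 2) cube := fun k =>
        integrableOn_cube ((spW hv k).cont.pow 2)
      have hle : ∀ x, |qq v i j x| ≤ 1 / 2 * (W v i x ^ 2 + W v j x ^ 2) := by
        intro x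
        unfold qq
        rw [abs_mul]
        nlinarith [sq_nonneg (|W v i x| - |W v j x|), sq_abs (W v i x), sq_abs (W v j x)]
      have h8 : ∫ x in cube, |qq v i j x|
          ≤ ∫ x in cube, 1 / 2 * (W v i x ^ 2 + W v j x ^ 2) :=
        integral_mono (integrableOn_cube (spq hv i j).cont.abs) (((hi i).add (hi j)).const_mul _) hle
      rw [integral_const_mul, integral_add (hi i) (hi j)] at h8
      have h9 : ∀ k, ∫ x in cube, W v k x ^ 2 ≤ a2 := fun k =>
        Finset.single_le_sum (f := fun k => ∫ x in cube, W v k x ^ 2)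
          (fun _ _ => integral_nonneg fun _ => sq_nonneg _) (Finset.mem_univ k)
      linarith [h9 i, h9 j]
    have h8 : nrm (fun y => v y j) ≤ Real.sqrt (energy v) := by
      unfold nrm energy
      refine Real.sqrt_le_sqrt ?_
      exact Finset.single_le_sum (f := fun j => ∫ x in cube, v x j ^ 2)
          (fun _ _ => integral_nonneg fun _ => sq_nonneg _) (Finset.mem_univ j)
    have hrp : 0 ≤ r ^ (-(3 / 2) : ℝ) := Real.rpow_nonneg hr.le _
    have ha20 : 0 ≤ a2 := Finset.sum_nonneg fun _ _ => integral_nonneg fun _ => sq_nonneg _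
    have h10 : (∫ x in cube, |qq v i j x|) * (3 * r ^ (-(3 / 2) : ℝ) * nrm (fun y => v y j))
        ≤ a2 * (3 * r ^ (-(3 / 2) : ℝ) * Real.sqrt (energy v)) := by
      refine mul_le_mul h7 (mul_le_mul_of_nonneg_left h8 (by positivity)) ?_ ha20
      exact mul_nonneg (by positivity) (nrm_nonneg _)
    have h11 := mul_le_mul_of_nonneg_left (h3.trans (h6.trans h10)) (by positivity : 0 ≤ 4 / r)
    refine h11.trans (le_of_eq ?_)
    have h12 : r ^ (-(5 / 2) : ℝ) = r ^ (-(3 / 2) : ℝ) / r := by
      rw [← Real.rpow_sub_one hr0]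
      norm_num
    rw [h12]
    field_simp
    ring
  unfold psi
  have h9 : ∀ i, |∑ j, ∫ z, bmp 2 1 z * cor (qq v i j) (pd i (fun y => v y j)) (r • z)|
      ≤ 3 * (12 * r ^ (-(5 / 2) : ℝ) * Real.sqrt (energy v) * a2) := fun i => abs_sum3 (hterm i)
  refine (abs_sum3 h9).trans (le_of_eq ?_)
  ring

end

end Pool.Agent.U570.VP
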