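import Pool.Agent.U570.VP.One

/-!
The one-sided two-point criterion.
-/

open MeasureTheory Set Filter Topology
open scoped ENNReal

namespace Pool.Agent.U570.VP

open H459R3.NS
open Pool.Agent.W268.NS

/-- the enstrophy is integrable up to the time `T` -/
theorem enst_integrable {ν T : ℝ} {u : ℝ → V → V} {P : ℝ → V → ℝ} (h : IsSol ν T u P)
    (hν : 0 < ν) : IntegrableOn (fun t => enstrophy (u t)) (Ioo 0 T) := by
  rcases le_or_gt T 0 with hT | hT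
  · rw [Ioo_eq_empty (not_lt.2 hT)]
    exact integrableOn_empty
  have hb : Tendsto (fun n : ℕ => T * (1 - 1 / ((n : ℝ) + 1))) atTop (𝓝 T) := by
    have h1 := tendsto_one_div_add_atTop_nhds_zero_nat (𝕜 := ℝ)
    have h2 := (h1.const_sub 1).const_mul T
    simpa using h2
  have hlt : ∀ n : ℕ, T * (1 - 1 / ((n : ℝ) + 1)) ∈ Ico 0 T := by
    intro n
    have h1 : (0 : ℝ) < 1 / ((n : ℝ) + 1) := by positivity
    have h2 : 1 / ((n : ℝ) + 1) ≤ 1 := by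
      rw [div_le_one (by positivity)]
      have : (0 : ℝ) ≤ n := Nat.cast_nonneg n
      linarith
    exact ⟨mul_nonneg hT.le (by linarith), by nlinarith⟩
  have hI : ∀ n : ℕ, IntegrableOn (fun t => enstrophy (u t))
      (Ioc 0 (T * (1 - 1 / ((n : ℝ) + 1)))) := by
    intro n
    have hc : ContinuousOn (fun s => enstrophy (u s)) (Icc 0 (T * (1 - 1 / ((n : ℝ) + 1)))) :=
      h.enstrophy_continuousOn.mono fun s hs => ⟨hs.1, hs.2.trans_lt (hlt n).2⟩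
    exact hc.integrableOn_Icc.mono_set Ioc_subset_Icc_self
  have h1 := integrableOn_Ioc_of_intervalIntegral_norm_bounded_right (I := energy (u 0) / (2 * ν))
    hI hb (Eventually.of_forall fun n => by
      have h2 := h.int_enstrophy hν (hlt n)
      rw [intervalIntegral.integral_of_le (hlt n).1] at h2
      refine le_trans (le_of_eq ?_) h2
      refine setIntegral_congr_fun measurableSet_Ioc fun t _ => ?_
      rw [Real.norm_eq_abs, abs_of_nonneg (enstrophy_nonneg _)])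
  exact h1.mono_set Ioo_subset_Ioc_self

theorem mul_integrable {T : ℝ} {s : ℝ≥0∞} (hs : 2 < s) {γ y : ℝ → ℝ}
    (hγ : MemLp γ s (volume.restrict (Ioo 0 T))) (hy0 : ∀ t, 0 ≤ y t)
    (hy : IntegrableOn y (Ioo 0 T)) :
    IntegrableOn (fun t => |γ t * Real.sqrt (y t)| ^ (4 / (1 + 2 * (1 / 2 + 2 * (s⁻¹).toReal))))
      (Ioo 0 T) := by
  have hy2 : MemLp (fun t => Real.sqrt (y t)) 2 (volume.restrict (Ioo 0 T)) := by
    rw [memLp_two_iff_integrable_sq (Real.continuous_sqrt.comp_aestronglyMeasurable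
      hy.aestronglyMeasurable)]
    refine hy.congr (Eventually.of_forall fun t => ?_)
    show y t = Real.sqrt (y t) ^ 2
    rw [Real.sq_sqrt (hy0 t)]
  set r : ℝ≥0∞ := (s⁻¹ + 2⁻¹)⁻¹ with hr
  have hs0 : s ≠ 0 := (lt_trans (by norm_num) hs).ne'
  have hsi : s⁻¹ ≠ ∞ := ENNReal.inv_ne_top.2 hs0
  have hsum0 : s⁻¹ + 2⁻¹ ≠ 0 := by simp
  have hsumt : s⁻¹ + 2⁻¹ ≠ ∞ := ENNReal.add_ne_top.2 ⟨hsi, by simp⟩
  have hrt : r ≠ ∞ := by
    rw [hr]
    exact ENNReal.inv_ne_top.2 hsum0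
  have hr0 : r ≠ 0 := by
    rw [hr]
    exact ENNReal.inv_ne_zero.2 hsumt
  have hH : ENNReal.HolderTriple s 2 r := ⟨by rw [hr, inv_inv]⟩
  have hm : MemLp (fun t => γ t * Real.sqrt (y t)) r (volume.restrict (Ioo 0 T)) :=
    MemLp.mul' (hφ := hγ) (hf := hy2) (r := r)
  have h1 := hm.integrable_norm_rpow hr0 hrt
  have e : r.toReal = 4 / (1 + 2 * (1 / 2 + 2 * (s⁻¹).toReal)) := by
    rw [hr, ENNReal.toReal_inv, ENNReal.toReal_add hsi (by simp)]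
    have h2 : (2⁻¹ : ℝ≥0∞).toReal = 1 / 2 := by simp
    rw [h2]
    have h3 : 0 ≤ (s⁻¹).toReal := ENNReal.toReal_nonneg
    have h4 : (s⁻¹).toReal + 1 / 2 ≠ 0 := by positivity
    have h5 : 1 + 2 * (1 / 2 + 2 * (s⁻¹).toReal) ≠ 0 := by positivity
    rw [inv_eq_one_div, div_eq_div_iff h4 h5]
    ring
  rw [e] at h1
  exact h1

theorem cub_zero {v : V → V} (hv : ∀ i, SP (fun y => v y i))
    (hdiv : ∀ x, ∑ i, pd i (fun y => v y i) x = 0) (h : enstrophy v = 0) :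
    cub (fun i y => v y i) = 0 := by
  have h1 := cub_eq_stretch hv hdiv
  rw [stretch_zero hv hdiv h] at h1
  linarith

/-- The criterion. -/
theorem criterion0 {ν κ : ℝ} (hν : 0 < ν) (hκ0 : 0 ≤ κ) (hκ : κ < 2) {s : ℝ≥0∞} (hs : 2 < s) {T : ℝ}
    {u : ℝ → V → V} {P : ℝ → V → ℝ} (h : IsSol ν T u P) {ρ Λ γ : ℝ → ℝ}
    (hρ : IntegrableOn (fun t => ρ t ^ (-(5 / 2) : ℝ)) (Ioo 0 T))
    (hΛ : IntegrableOn (fun t => Λ t * Real.log (2 + Λ t)) (Ioo 0 T))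
    (hγ : MemLp γ s (volume.restrict (Ioo 0 T)))
    (hc : ∀ᵐ t ∂(volume.restrict (Ioo 0 T)), 0 < ρ t ∧ ρ t ≤ 1 / 2 ∧ 0 ≤ Λ t ∧ 0 ≤ γ t ∧
      ∃ η : ℝ → ℝ, (∀ r ∈ Ioo 0 (ρ t), 0 ≤ η r) ∧ MonotoneOn η (Ioo 0 (ρ t)) ∧
        IntegrableOn (fun r => η r / r) (Ioo 0 (ρ t)) ∧ ∫ r in Ioo 0 (ρ t), η r / r ≤ κ ∧
        PairLE ν (Λ t) (γ t) (1 / 2 + 2 * (s⁻¹).toReal) (ρ t) η (vort (u t))) :
    ∃ C, ∀ t ∈ Ico 0 T, ∀ x i, |u t x i| ≤ C := by
  have hσ0 : 0 ≤ (s⁻¹).toReal := ENNReal.toReal_nonneg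
  have hσ1 : (s⁻¹).toReal < 1 / 2 := by
    have h1 : s⁻¹ < 2⁻¹ := ENNReal.inv_lt_inv.2 hs
    have h2 := (ENNReal.toReal_lt_toReal (h1.trans_le (by simp : (2⁻¹ : ℝ≥0∞) ≤ 1)
      |>.trans ENNReal.one_lt_top).ne (by simp)).2 h1
    simpa using h2
  set β : ℝ := 1 / 2 + 2 * (s⁻¹).toReal with hβ
  have hβ0 : 0 < β := by positivity
  have hβ1 : β < 3 / 2 := by rw [hβ]; linarith
  obtain ⟨D, hD0, hD⟩ := stretch_le (ε := (2 - κ) / 4) (ν := ν) (β := β) (κ := κ) (by linarith) hν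
    hβ0 hβ1
  set E0 : ℝ := Real.sqrt (energy (u 0)) with hE0
  have hE00 : 0 ≤ E0 := Real.sqrt_nonneg _
  set q : ℝ := 4 / (1 + 2 * β) with hq
  set g0 : ℝ → ℝ := fun t => 2 * D * (ρ t ^ (-(5 / 2) : ℝ) * E0 + Λ t * Real.log (2 + Λ t)
    + |γ t * Real.sqrt (enstrophy (u t))| ^ q) with hg0
  have ig0 : IntegrableOn g0 (Ioo 0 T) :=
    (((hρ.mul_const E0).add hΛ).add (mul_integrable hs hγ (fun t => enstrophy_nonneg _)
      (enst_integrable h hν))).const_mul _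
  classical
  set good : ℝ → Prop := fun t => 0 ≤ g0 t ∧ -(2 * cub (fun i y => u t y i))
      ≤ (2 - (2 - κ) / 2) * (ν * palin (u t)) + g0 t * enstrophy (u t) with hgood
  set g : ℝ → ℝ := fun t => if good t then g0 t else
    |2 * cub (fun i y => u t y i)| / enstrophy (u t) with hg
  have hae : ∀ᵐ t ∂(volume.restrict (Ioo 0 T)), good t := by
    filter_upwards [hc, ae_restrict_mem measurableSet_Ioo] with t ht hT
    obtain ⟨hρ0, hρ1, hΛ0, hγ0, η, hη0, hηm, hηi, hηκ, hpair⟩ := ht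
    have hI : t ∈ Ico 0 T := ⟨hT.1.le, hT.2⟩
    have hv : ∀ i, SP (fun y => u t y i) := fun i => h.sp hI i
    have h1 := hD (u t) hv (h.divfree t hI) (ρ t) (Λ t) (γ t) η hρ0 hρ1 hΛ0 hγ0 hη0 hηm hηi hηκ
      hpair
    rw [← cub_eq_stretch hv (h.divfree t hI)] at h1
    have h2 : Real.sqrt (energy (u t)) ≤ E0 := Real.sqrt_le_sqrt (h.energy_le hν hI)
    have h3 : 0 ≤ ρ t ^ (-(5 / 2) : ℝ) := Real.rpow_nonneg hρ0.le _
    have h4 : 0 ≤ Λ t * Real.log (2 + Λ t) :=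
      mul_nonneg hΛ0 (Real.log_nonneg (by linarith))
    have h5 : 0 ≤ γ t * Real.sqrt (enstrophy (u t)) := mul_nonneg hγ0 (Real.sqrt_nonneg _)
    have h6 : 0 ≤ (γ t * Real.sqrt (enstrophy (u t))) ^ q := Real.rpow_nonneg h5 _
    have h7 : g0 t = 2 * (D * (ρ t ^ (-(5 / 2) : ℝ) * E0 + Λ t * Real.log (2 + Λ t)
        + (γ t * Real.sqrt (enstrophy (u t))) ^ q)) := by
      rw [hg0]
      simp only
      rw [abs_of_nonneg h5]
      ring
    refine ⟨?_, ?_⟩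
    · rw [h7]
      positivity
    · rw [h7]
      have h8 : D * (ρ t ^ (-(5 / 2) : ℝ) * Real.sqrt (energy (u t)) + Λ t * Real.log (2 + Λ t)
          + (γ t * Real.sqrt (enstrophy (u t))) ^ q) * enstrophy (u t)
          ≤ D * (ρ t ^ (-(5 / 2) : ℝ) * E0 + Λ t * Real.log (2 + Λ t)
          + (γ t * Real.sqrt (enstrophy (u t))) ^ q) * enstrophy (u t) := by
        have := enstrophy_nonneg (u t)
        gcongr
      have h9 := palin_nonneg (u t)
      have h10 : 2 * ((κ / 2 + (2 - κ) / 4) * (ν * palin (u t)))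
          = (2 - (2 - κ) / 2) * (ν * palin (u t)) := by ring
      have h11 : 2 * (D * (ρ t ^ (-(5 / 2) : ℝ) * E0 + Λ t * Real.log (2 + Λ t)
          + (γ t * Real.sqrt (enstrophy (u t))) ^ q)) * enstrophy (u t)
          = 2 * (D * (ρ t ^ (-(5 / 2) : ℝ) * E0 + Λ t * Real.log (2 + Λ t)
          + (γ t * Real.sqrt (enstrophy (u t))) ^ q) * enstrophy (u t)) := by ring
      rw [h11]
      linarith
  have hgg : g =ᵐ[volume.restrict (Ioo 0 T)] g0 := by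
    filter_upwards [hae] with t ht
    simp only [hg]
    rw [if_pos ht]
  have ig : IntegrableOn g (Ioo 0 T) := ig0.congr hgg.symm
  have hgnn : ∀ t, 0 ≤ g t := by
    intro t
    simp only [hg]
    split_ifs with ht
    · exact ht.1
    · exact div_nonneg (abs_nonneg _) (enstrophy_nonneg _)
  have higI : ∀ t ∈ Ico 0 T, IntegrableOn g (Icc 0 t) := by
    intro t ht
    rw [integrableOn_Icc_iff_integrableOn_Ioc, integrableOn_Ioc_iff_integrableOn_Ioo]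
    exact ig.mono_set (Ioo_subset_Ioo_right ht.2.le)
  refine (h.gron hν (g := g) (B := ∫ t in Ioo 0 T, g t) (δ := (2 - κ) / 2) (by linarith)
    (fun t _ => hgnn t) higI (fun t ht => ?_) (fun t ht => ?_)).2
  · rw [intervalIntegral.integral_of_le ht.1, integral_Ioc_eq_integral_Ioo]
    exact setIntegral_mono_set ig (Eventually.of_forall fun s => hgnn s)
      (Ioo_subset_Ioo_right ht.2.le).eventuallyLE
  · have hI : t ∈ Ico 0 T := ⟨ht.1.le, ht.2⟩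
    have hv : ∀ i, SP (fun y => u t y i) := fun i => h.sp hI i
    by_cases hgt : good t
    · have e : g t = g0 t := by simp only [hg]; rw [if_pos hgt]
      rw [e]
      exact hgt.2
    · have e : g t = |2 * cub (fun i y => u t y i)| / enstrophy (u t) := by
        simp only [hg]; rw [if_neg hgt]
      have hp : 0 ≤ (2 - (2 - κ) / 2) * (ν * palin (u t)) :=
        mul_nonneg (by linarith) (mul_nonneg hν.le (palin_nonneg _))
      rw [e]
      rcases (enstrophy_nonneg (u t)).eq_or_lt with hz | hz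
      · rw [← hz, cub_zero hv (h.divfree t hI) hz.symm]
        simpa using hp
      · rw [div_mul_cancel₀ _ hz.ne']
        have := neg_abs_le (2 * cub (fun i y => u t y i))
        linarith

/-- The criterion. -/
theorem criterion {ν κ : ℝ} (hν : 0 < ν) (hκ : κ < 2) {s : ℝ≥0∞} (hs : 2 < s) {T : ℝ}
    {u : ℝ → V → V} {P : ℝ → V → ℝ} (h : IsSol ν T u P) {ρ Λ γ : ℝ → ℝ}
    (hρ : IntegrableOn (fun t => ρ t ^ (-(5 / 2) : ℝ)) (Ioo 0 T))
    (hΛ : IntegrableOn (fun t => Λ t * Real.log (2 + Λ t)) (Ioo 0 T))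
    (hγ : MemLp γ s (volume.restrict (Ioo 0 T)))
    (hc : ∀ᵐ t ∂(volume.restrict (Ioo 0 T)), 0 < ρ t ∧ ρ t ≤ 1 / 2 ∧ 0 ≤ Λ t ∧ 0 ≤ γ t ∧
      ∃ η : ℝ → ℝ, (∀ r ∈ Ioo 0 (ρ t), 0 ≤ η r) ∧ MonotoneOn η (Ioo 0 (ρ t)) ∧
        IntegrableOn (fun r => η r / r) (Ioo 0 (ρ t)) ∧ ∫ r in Ioo 0 (ρ t), η r / r ≤ κ ∧
        PairLE ν (Λ t) (γ t) (1 / 2 + 2 * (s⁻¹).toReal) (ρ t) η (vort (u t))) :
    ∃ C, ∀ t ∈ Ico 0 T, ∀ x i, |u t x i| ≤ C := by
  refine criterion0 hν (κ := max κ 0) (le_max_right _ _) (max_lt hκ (by norm_num)) hs h hρ hΛ hγ ?_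
  filter_upwards [hc] with t ht
  obtain ⟨h1, h2, h3, h4, η, h5, h6, h7, h8, h9⟩ := ht
  exact ⟨h1, h2, h3, h4, η, h5, h6, h7, h8.trans (le_max_left _ _), h9⟩

end Pool.Agent.U570.VP
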