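import Pool.Agent.U570.VP.Cor

/-!
The enstrophy production as an integral over pairs of points: the derivative of the averages over
balls of radius `r`.
-/

open MeasureTheory Set Filter Topology
open scoped ContDiff

namespace Pool.Agent.U570.VP

open H459R3.NS
open Pool.Agent.TH340.PS (bmp bmp_cont bmp_compact bmp_nonneg bmp_neg bmp_zero rho sq_le_rho ibp_bmp
  int_bmp pd_coord rho_nonneg rho_neg rho_cont)
open Pool.Agent.W268.NS

theorem abs_le_of_bmp {n : ℕ} {z : V} (h : bmp (n + 1) 1 z ≠ 0) (i : Fin 3) : |z i| ≤ 1 := by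
  have h1 : rho z < 1 ^ 2 := by
    by_contra h2
    exact h (bmp_zero (not_lt.1 h2))
  have h2 := (sq_le_rho z i).trans_lt h1
  refine abs_le.2 ⟨?_, ?_⟩ <;> nlinarith

theorem avg_hasDerivAt {f : V → ℝ} (hf : SP f) (r : ℝ) :
    HasDerivAt (fun r : ℝ => ∫ z, bmp 2 1 z * f (r • z))
      (r / 6 * ∫ z, bmp 3 1 z * lap f (r • z)) r := by
  have hb : ∀ j, ∃ C, 0 ≤ C ∧ ∀ x, |pd j f x| ≤ C := fun j =>
    bdd_of_per (hf.pd j).per (hf.pd j).cont
  choose C hC0 hC using hb
  have hfc := fun r : ℝ => (contDiff_dil hf.smooth r).continuous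
  have hpc := fun (m : Fin 3) (r : ℝ) => (contDiff_dil (hf.pd m).smooth r).continuous
  have hF' : Continuous fun z : V => bmp 2 1 z * ∑ m, z m * pd m f (r • z) :=
    (bmp_cont _ _).mul (continuous_finsetSum _ fun m _ => (continuous_apply m).mul (hpc m r))
  have key : HasDerivAt (fun r : ℝ => ∫ z, bmp 2 1 z * f (r • z))
      (∫ z, bmp 2 1 z * ∑ m, z m * pd m f (r • z)) r := by
    refine (hasDerivAt_integral_of_dominated_loc_of_deriv_le (μ := (volume : Measure V))
      (F := fun r z => bmp 2 1 z * f (r • z))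
      (F' := fun r z => bmp 2 1 z * ∑ m, z m * pd m f (r • z))
      (bound := fun z => bmp 2 1 z * ∑ m, C m) (s := univ) Filter.univ_mem ?_ ?_ ?_ ?_ ?_ ?_).2
    · exact Eventually.of_forall fun s => ((bmp_cont _ _).mul (hfc s)).aestronglyMeasurable
    · exact int_bmp 1 1 (hfc r)
    · exact hF'.aestronglyMeasurable
    · refine Eventually.of_forall fun z s _ => ?_
      rw [norm_mul, Real.norm_eq_abs, abs_of_nonneg (bmp_nonneg _ _ _)]
      by_cases h0 : bmp 2 1 z = 0
      · rw [h0, zero_mul, zero_mul]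
      refine mul_le_mul_of_nonneg_left ?_ (bmp_nonneg _ _ _)
      refine (norm_sum_le _ _).trans (Finset.sum_le_sum fun m _ => ?_)
      rw [norm_mul, Real.norm_eq_abs, Real.norm_eq_abs]
      calc |z m| * |pd m f (s • z)| ≤ 1 * C m :=
            mul_le_mul (abs_le_of_bmp h0 m) (hC m _) (abs_nonneg _) zero_le_one
        _ = C m := one_mul _
    · exact int_bmp 1 1 continuous_const
    · refine Eventually.of_forall fun z s _ => ?_
      have h1 : HasFDerivAt f (fderiv ℝ f (s • z)) (s • z) := (hf.diff _).hasFDerivAt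
      have h2 : HasDerivAt (fun s : ℝ => s • z) z s := by
        simpa using (hasDerivAt_id s).smul_const z
      have h3 := (h1.comp_hasDerivAt s h2).const_mul (bmp 2 1 z)
      rw [fderiv_apply_eq] at h3
      exact h3
  have e : (∫ z, bmp 2 1 z * ∑ m, z m * pd m f (r • z))
      = r / 6 * ∫ z, bmp 3 1 z * lap f (r • z) := by
    have h1 : ∀ m : Fin 3, ∫ z, bmp 2 1 z * (z m * pd m f (r • z))
        = r / 6 * ∫ z, bmp 3 1 z * pd m (pd m f) (r • z) := by
      intro m
      have h1 := ibp_bmp 1 1 (f := fun z => pd m f (r • z))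
        ((contDiff_dil (hf.pd m).smooth r).of_le (by norm_cast)) m
      simp_rw [pd_dil (SP.differentiable (hf.pd m)) r m] at h1
      rw [show (1 + 2 : ℕ) = 3 from rfl, show (1 + 1 : ℕ) = 2 from rfl] at h1
      have e6 : ∫ z, bmp 3 1 z * (r * pd m (pd m f) (r • z))
          = r * ∫ z, bmp 3 1 z * pd m (pd m f) (r • z) := by
        rw [← integral_const_mul]
        congr 1
        funext z
        ring
      rw [e6] at h1
      push_cast at h1
      linarith
    simp_rw [Finset.mul_sum]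
    rw [integral_finsetSum _ fun m _ => int_bmp 1 1 (f := fun z => z m * pd m f (r • z))
      ((continuous_apply m).mul (hpc m r))]
    simp_rw [h1]
    rw [← Finset.mul_sum]
    congr 1
    unfold lap
    simp_rw [Finset.mul_sum]
    rw [integral_finsetSum _ fun m _ => int_bmp 2 1 (f := fun z => pd m (pd m f) (r • z))
      (contDiff_dil ((hf.pd m).pd m).smooth r).continuous]
  rw [← e]
  exact key

section

variable {v : V → V} (hv : ∀ i, SP (fun y => v y i))

/-- the components of the curl -/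
noncomputable def W (v : V → V) (i : Fin 3) (x : V) : ℝ := vort v x i

include hv in
theorem spW (i : Fin 3) : SP (W v i) := sp_vort hv i

theorem W_eq (i : Fin 3) (x : V) : W v i x = pd (i + 1) (fun y => v y (i + 2)) x
    - pd (i + 2) (fun y => v y (i + 1)) x := by
  fin_cases i <;> rfl

include hv in
theorem lap_eq (hdiv : ∀ x, ∑ i, pd i (fun y => v y i) x = 0) (j : Fin 3) (x : V) :
    lap (fun y => v y j) x = -(pd (j + 1) (W v (j + 2)) x - pd (j + 2) (W v (j + 1)) x) := by
  have hW : ∀ i, W v i = fun x => pd (i + 1) (fun y => v y (i + 2)) x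
    - pd (i + 2) (fun y => v y (i + 1)) x := fun i => funext fun x => W_eq i x
  have e1 : pd (j + 1) (W v (j + 2)) x = pd (j + 1) (pd j (fun y => v y (j + 1))) x
      - pd (j + 1) (pd (j + 1) (fun y => v y j)) x := by
    rw [hW, pd_sub ((hv _).pd _) ((hv _).pd _)]
    have a1 : j + 2 + 1 = j := by fin_cases j <;> rfl
    have a2 : j + 2 + 2 = j + 1 := by fin_cases j <;> rfl
    rw [a1, a2]
  have e2 : pd (j + 2) (W v (j + 1)) x = pd (j + 2) (pd (j + 2) (fun y => v y j)) x
      - pd (j + 2) (pd j (fun y => v y (j + 2))) x := by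
    rw [hW, pd_sub ((hv _).pd _) ((hv _).pd _)]
    have a1 : j + 1 + 1 = j + 2 := by fin_cases j <;> rfl
    have a2 : j + 1 + 2 = j := by fin_cases j <;> rfl
    rw [a1, a2]
  have e3 : pd j (fun x => ∑ i, pd i (fun y => v y i) x) x = 0 := by
    have : (fun x => ∑ i, pd i (fun y => v y i) x) = fun _ => (0 : ℝ) := funext hdiv
    rw [this]
    simp [pd]
  rw [pd_sum fun i _ => (hv i).pd i] at e3
  have e4 : ∀ i : Fin 3, pd j (pd i (fun y => v y i)) x = pd i (pd j (fun y => v y i)) x := fun i =>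
    congrFun (pd_comm (hv i) j i) x
  simp_rw [e4] at e3
  rw [e1, e2]
  unfold lap
  have s3 : ∀ f : Fin 3 → ℝ, ∑ i, f i = f j + f (j + 1) + f (j + 2) := by
    intro f
    rw [Fin.sum_univ_three]
    fin_cases j
    · rfl
    · show f 0 + f 1 + f 2 = f 1 + f 2 + f 0
      ring
    · show f 0 + f 1 + f 2 = f 2 + f 0 + f 1
      ring
  rw [s3] at e3 ⊢
  linarith

/-- the coefficients -/
noncomputable def qq (v : V → V) (i j : Fin 3) (x : V) : ℝ := W v i x * W v j x

include hv in
theorem spq (i j : Fin 3) : SP (qq v i j) := (spW hv i).mul (spW hv j)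

/-- the average of the production over the ball of radius `r` -/
noncomputable def psi (v : V → V) (r : ℝ) : ℝ :=
  ∑ i, ∑ j, ∫ z, bmp 2 1 z * cor (qq v i j) (pd i (fun y => v y j)) (r • z)

/-- the integrand of the derivative of `psi` -/
noncomputable def Qf (v : V → V) (r : ℝ) (z : V) : ℝ :=
  ∑ i, ∑ j, (z i * z (j + 1) * cor (qq v i j) (W v (j + 2)) (r • z)
    - z i * z (j + 2) * cor (qq v i j) (W v (j + 1)) (r • z))

include hv in
theorem lap_cor_eq (hdiv : ∀ x, ∑ i, pd i (fun y => v y i) x = 0) (i j : Fin 3) (x : V) :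
    lap (cor (qq v i j) (pd i (fun y => v y j))) x
      = -(pd i (pd (j + 1) (cor (qq v i j) (W v (j + 2)))) x
        - pd i (pd (j + 2) (cor (qq v i j) (W v (j + 1)))) x) := by
  have hq := spq hv i j
  have hg := (hv j).pd i
  unfold lap
  have e1 : ∀ m, pd m (pd m (cor (qq v i j) (pd i (fun y => v y j)))) x
      = cor (qq v i j) (pd m (pd m (pd i (fun y => v y j)))) x := by
    intro m
    rw [pd_cor hq hg, pd_cor hq (hg.pd m)]
  simp_rw [e1]
  rw [pd_cor hq (spW hv _), pd_cor hq ((spW hv _).pd _), pd_cor hq (spW hv _),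
    pd_cor hq ((spW hv _).pd _)]
  unfold cor
  rw [← integral_finsetSum _ fun m _ =>
    (hq.mul (SP.shift ((hg.pd m).pd m) x)).int]
  rw [← integral_sub (hq.mul (SP.shift (((spW hv _).pd _).pd _) x)).int
    (hq.mul (SP.shift (((spW hv _).pd _).pd _) x)).int, ← integral_neg]
  congr 1
  funext y
  rw [← Finset.mul_sum]
  have e2 : ∑ m, pd m (pd m (pd i (fun y => v y j))) (y + x)
      = pd i (lap (fun y => v y j)) (y + x) := by
    unfold lap
    rw [pd_sum fun m _ => ((hv j).pd m).pd m]
    refine Finset.sum_congr rfl fun m _ => ?_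
    rw [pd_comm (hv j) m i, pd_comm ((hv j).pd m) m i]
  have e3 : lap (fun y => v y j)
      = fun x => pd (j + 2) (W v (j + 1)) x - pd (j + 1) (W v (j + 2)) x :=
    funext fun x => by rw [lap_eq hv hdiv j x]; ring
  rw [e2, e3, pd_sub ((spW hv _).pd _) ((spW hv _).pd _)]
  ring

include hv in
theorem psi_hasDerivAt (hdiv : ∀ x, ∑ i, pd i (fun y => v y i) x = 0) {r : ℝ} (hr : r ≠ 0) :
    HasDerivAt (psi v) (-(4 / r * ∫ z, bmp 1 1 z * Qf v r z)) r := by
  have h : HasDerivAt (psi v) (∑ i, ∑ j, (r / 6 * ∫ z, bmp 3 1 z *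
      lap (cor (qq v i j) (pd i (fun y => v y j))) (r • z))) r :=
    HasDerivAt.fun_sum fun i _ => HasDerivAt.fun_sum fun j _ =>
      avg_hasDerivAt (sp_cor (spq hv i j) ((hv j).pd i)) r
  convert h using 1
  have hc : ∀ i j k, SP (cor (qq v i j) (W v k)) := fun i j k => sp_cor (spq hv i j) (spW hv k)
  have hk : ∀ i j k, Continuous fun z : V => cor (qq v i j) (W v k) (r • z) := fun i j k =>
    (contDiff_dil (hc i j k).smooth r).continuous
  have hm : ∀ (a b i j k : Fin 3), Continuous fun z : V =>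
      z a * z b * cor (qq v i j) (W v k) (r • z) := fun a b i j k =>
    ((continuous_apply a).mul (continuous_apply b)).mul (hk i j k)
  -- each term
  have e1 : ∀ i j : Fin 3, r / 6 * (∫ z, bmp 3 1 z *
      lap (cor (qq v i j) (pd i (fun y => v y j))) (r • z))
      = -(4 / r * ∫ z, bmp 1 1 z * (z i * z (j + 1) * cor (qq v i j) (W v (j + 2)) (r • z)
        - z i * z (j + 2) * cor (qq v i j) (W v (j + 1)) (r • z)))
        + 1 / r * ((if i = j + 1 then ∫ z, bmp 2 1 z * cor (qq v i j) (W v (j + 2)) (r • z) else 0)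
          - (if i = j + 2 then ∫ z, bmp 2 1 z * cor (qq v i j) (W v (j + 1)) (r • z) else 0)) := by
    intro i j
    simp_rw [lap_cor_eq hv hdiv]
    have a1 := ibp_two (hc i j (j + 2)) hr i (j + 1)
    have a2 := ibp_two (hc i j (j + 1)) hr i (j + 2)
    have b1 : ∫ z, bmp 3 1 z * -(pd i (pd (j + 1) (cor (qq v i j) (W v (j + 2)))) (r • z)
        - pd i (pd (j + 2) (cor (qq v i j) (W v (j + 1)))) (r • z))
        = -((∫ z, bmp 3 1 z * pd i (pd (j + 1) (cor (qq v i j) (W v (j + 2)))) (r • z))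
          - ∫ z, bmp 3 1 z * pd i (pd (j + 2) (cor (qq v i j) (W v (j + 1)))) (r • z)) := by
      rw [← integral_sub, ← integral_neg]
      · congr 1
        funext z
        ring
      · exact int_bmp 2 1 (contDiff_dil (((hc _ _ _).pd _).pd _).smooth r).continuous
      · exact int_bmp 2 1 (contDiff_dil (((hc _ _ _).pd _).pd _).smooth r).continuous
    have b2 : ∫ z, bmp 1 1 z * (z i * z (j + 1) * cor (qq v i j) (W v (j + 2)) (r • z)
        - z i * z (j + 2) * cor (qq v i j) (W v (j + 1)) (r • z))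
        = (∫ z, bmp 1 1 z * (z i * z (j + 1) * cor (qq v i j) (W v (j + 2)) (r • z)))
          - ∫ z, bmp 1 1 z * (z i * z (j + 2) * cor (qq v i j) (W v (j + 1)) (r • z)) := by
      rw [← integral_sub]
      · congr 1
        funext z
        ring
      · exact int_bmp 0 1 (hm _ _ _ _ _)
      · exact int_bmp 0 1 (hm _ _ _ _ _)
    rw [b1, b2, a1, a2]
    field_simp
    ring
  simp_rw [e1]
  have e2 : ∫ z, bmp 1 1 z * Qf v r z = ∑ i, ∑ j,
      ∫ z, bmp 1 1 z * (z i * z (j + 1) * cor (qq v i j) (W v (j + 2)) (r • z)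
        - z i * z (j + 2) * cor (qq v i j) (W v (j + 1)) (r • z)) := by
    have hcont : ∀ i j : Fin 3, Continuous fun z : V =>
        z i * z (j + 1) * cor (qq v i j) (W v (j + 2)) (r • z)
        - z i * z (j + 2) * cor (qq v i j) (W v (j + 1)) (r • z) := fun i j =>
      (hm _ _ _ _ _).sub (hm _ _ _ _ _)
    unfold Qf
    simp_rw [Finset.mul_sum]
    rw [integral_finsetSum _ fun i _ => integrable_finsetSum _ fun j _ => int_bmp 0 1 (hcont i j)]
    refine Finset.sum_congr rfl fun i _ => ?_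
    rw [integral_finsetSum _ fun j _ => int_bmp 0 1 (hcont i j)]
  rw [e2]
  simp_rw [Finset.sum_add_distrib]
  have e3 : ∑ i : Fin 3, ∑ j : Fin 3, 1 / r * ((if i = j + 1 then
      ∫ z, bmp 2 1 z * cor (qq v i j) (W v (j + 2)) (r • z) else 0)
          - (if i = j + 2 then ∫ z, bmp 2 1 z * cor (qq v i j) (W v (j + 1)) (r • z) else 0)) = 0 := by
    have hs : ∀ i j, qq v i j = qq v j i := fun i j => funext fun x => by unfold qq; ring
    simp only [Fin.sum_univ_three]
    simp only [show (0 : Fin 3) + 1 = 1 from rfl, show (0 : Fin 3) + 2 = 2 from rfl,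
      show (1 : Fin 3) + 1 = 2 from rfl, show (1 : Fin 3) + 2 = 0 from rfl,
      show (2 : Fin 3) + 1 = 0 from rfl, show (2 : Fin 3) + 2 = 1 from rfl]
    simp
    rw [hs 1 0, hs 2 1, hs 2 0]
    ring
  rw [e3, add_zero]
  simp_rw [Finset.sum_neg_distrib, Finset.mul_sum]

end

end Pool.Agent.U570.VP
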