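import Pool.Agent.U570.VP.Vort

/-!
The near part: the integral over the pairs with distance at most `ρ`.
-/

open MeasureTheory Set Filter Topology
open scoped ContDiff ENNReal

namespace Pool.Agent.U570.VP

open H459R3.NS
open Pool.Agent.TH340.PS (bmp bmp_cont bmp_compact bmp_nonneg bmp_neg bmp_zero rho sq_le_rho ibp_bmp
  int_bmp pd_coord rho_nonneg rho_neg rho_cont)
open Pool.Agent.W268.NS

/-- the Euclidean length -/
noncomputable def len (y : V) : ℝ := Real.sqrt (y ⬝ᵥ y)

theorem len_nonneg (y : V) : 0 ≤ len y := Real.sqrt_nonneg _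

theorem dot_self (y : V) : y ⬝ᵥ y = rho y := by
  unfold rho dotProduct
  exact Finset.sum_congr rfl fun i _ => by ring

theorem len_sq (y : V) : len y ^ 2 = rho y := by
  unfold len
  rw [Real.sq_sqrt (by rw [dot_self]; exact rho_nonneg y), dot_self]

theorem len_cont : Continuous len := by
  have : len = fun y => Real.sqrt (rho y) := funext fun y => by unfold len; rw [dot_self]
  rw [this]
  exact rho_cont.sqrt

theorem len_smul {r : ℝ} (hr : 0 ≤ r) (y : V) : len (r • y) = r * len y := by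
  have h : (len (r • y)) ^ 2 = (r * len y) ^ 2 := by
    rw [mul_pow, len_sq, len_sq]
    unfold rho
    simp only [Pi.smul_apply, smul_eq_mul, mul_pow]
    rw [Finset.mul_sum]
  exact (pow_left_inj₀ (len_nonneg _) (mul_nonneg hr (len_nonneg _)) two_ne_zero).1 h

section

variable {v : V → V} (hv : ∀ i, SP (fun y => v y i))
  (hdiv : ∀ x, ∑ i, pd i (fun y => v y i) x = 0)

/-- the length of the vorticity -/
noncomputable def wl (v : V → V) (x : V) : ℝ := len (vort v x)

theorem wl_nonneg (x : V) : 0 ≤ wl v x := len_nonneg _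

theorem wl_sq (x : V) : wl v x ^ 2 = ∑ i, W v i x ^ 2 := len_sq _

include hv in
theorem vort_cont : Continuous (vort v) := continuous_pi fun i => (spW hv i).cont

include hv in
theorem wl_cont : Continuous (wl v) := len_cont.comp (vort_cont hv)

include hv in
theorem vort_per : Per (vort v) := fun j x => funext fun i => (spW hv i).per j x

include hv in
theorem wl_per : Per (wl v) := fun j x => by unfold wl; rw [vort_per hv j x]

include hv hdiv in
theorem int_wl_sq : ∫ x in cube, wl v x ^ 2 = enstrophy v := by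
  simp_rw [wl_sq]
  have hi : ∀ i, IntegrableOn (fun x => W v i x ^ 2) cube := fun i =>
    integrableOn_cube ((spW hv i).cont.pow 2)
  rw [integral_finsetSum _ fun i _ => hi i, enst_eq hv hdiv]

include hv hdiv in
theorem nrm_wl : nrm (wl v) = Real.sqrt (enstrophy v) := by
  unfold nrm
  rw [int_wl_sq hv hdiv]

include hv in
theorem int_W_zero (i : Fin 3) : ∫ x in cube, W v i x = 0 := by
  simp_rw [W_eq]
  rw [integral_sub ((hv _).pd _).int ((hv _).pd _).int, integral_pd
    ((hv _).smooth.of_le (by simp)) (hv _).per, integral_pd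
    ((hv _).smooth.of_le (by simp)) (hv _).per, sub_zero]

include hv hdiv in
theorem nrm_W_le (i : Fin 3) : nrm (W v i) ≤ Real.sqrt (enstrophy v) := by
  unfold nrm
  refine Real.sqrt_le_sqrt ?_
  rw [← enst_eq hv hdiv]
  exact Finset.single_le_sum (f := fun i => ∫ x in cube, W v i x ^ 2)
    (fun _ _ => integral_nonneg fun _ => sq_nonneg _) (Finset.mem_univ i)

include hv hdiv in
theorem grd_W_le (i : Fin 3) : grd (W v i) ≤ Real.sqrt (palin v) := by
  unfold grd
  refine Real.sqrt_le_sqrt ?_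
  rw [← palin_eq hv hdiv]
  exact Finset.single_le_sum (f := fun i => ∑ j, ∫ x in cube, pd j (W v i) x ^ 2)
    (fun _ _ => Finset.sum_nonneg fun _ _ => integral_nonneg fun _ => sq_nonneg _)
    (Finset.mem_univ i)

theorem th_two : th 2 = 3 / 2 := by
  unfold th
  rw [ENNReal.toReal_inv]
  norm_num

/-- a product of three vorticities -/
theorem exists_cube_bound : ∃ C : ℝ, 0 ≤ C ∧ ∀ (v : V → V), (∀ i, SP (fun y => v y i)) →
    (∀ x, ∑ i, pd i (fun y => v y i) x = 0) → ∀ y : V,
    ∫ x in cube, wl v (x + y) * wl v x ^ 2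
      ≤ C * (Real.sqrt (enstrophy v) * (Real.sqrt (enstrophy v) ^ (2 - 3 / 2 : ℝ)
        * Real.sqrt (palin v) ^ (3 / 2 : ℝ))) := by
  obtain ⟨C, hC0, hC⟩ := pot_of_Lp (p := 2) (by
    rw [ENNReal.div_lt_iff (by norm_num) (by norm_num)]; norm_num)
  refine ⟨3 * C, by positivity, fun v hv hdiv y => ?_⟩
  set a := Real.sqrt (enstrophy v)
  set b := Real.sqrt (palin v)
  have ha : 0 ≤ a := Real.sqrt_nonneg _
  have hb : 0 ≤ b := Real.sqrt_nonneg _
  have hs : Continuous fun x => wl v (x + y) :=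
    (wl_cont hv).comp (continuous_id.add continuous_const)
  have hsn : nrm (fun x => wl v (x + y)) = a := by
    unfold nrm
    have hp2 : Per fun x => wl v x ^ 2 := fun i x => by simp only [wl_per hv i x]
    have h1 : ∫ x in cube, wl v (x + y) ^ 2 = ∫ x in cube, wl v x ^ 2 :=
      Pool.Agent.R210.int_shift hp2 y
    rw [h1, int_wl_sq hv hdiv]
  have hterm : ∀ i, ∫ x in cube, wl v (x + y) * (W v i x * W v i x)
      ≤ C * (a * (a ^ (2 - 3 / 2 : ℝ) * b ^ (3 / 2 : ℝ))) := by
    intro i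
    have h1 := hC (fun x => wl v (x + y)) a (W v i) hs.aestronglyMeasurable ha
      (by rw [eLpNorm_two hs, hsn]) (spW hv i) (int_W_zero hv i)
    rw [th_two] at h1
    refine (le_abs_self _).trans (h1.trans ?_)
    rw [mul_assoc]
    refine mul_le_mul_of_nonneg_left (mul_le_mul_of_nonneg_left ?_ ha) hC0
    exact mul_le_mul (Real.rpow_le_rpow (nrm_nonneg _) (nrm_W_le hv hdiv i) (by norm_num))
      (Real.rpow_le_rpow (grd_nonneg _) (grd_W_le hv hdiv i) (by norm_num))
      (Real.rpow_nonneg (grd_nonneg _) _) (Real.rpow_nonneg ha _)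
  have e : ∀ x, wl v (x + y) * wl v x ^ 2 = ∑ i, wl v (x + y) * (W v i x * W v i x) := by
    intro x
    rw [wl_sq, Finset.mul_sum]
    exact Finset.sum_congr rfl fun i _ => by ring
  simp_rw [e]
  have hi : ∀ i, IntegrableOn (fun x => wl v (x + y) * (W v i x * W v i x)) cube := fun i =>
    integrableOn_cube (hs.mul ((spW hv i).cont.mul (spW hv i).cont))
  rw [integral_finsetSum _ fun i _ => hi i]
  refine (Finset.sum_le_sum fun i _ => hterm i).trans (le_of_eq ?_)
  simp
  ring

/-- the triple term -/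
noncomputable def TT (v : V → V) (r : ℝ) (z : V) : ℝ :=
  ∫ x in cube, wl v x * wl v (x + r • z) * (wl v x + wl v (x + r • z))

include hv in
theorem TT_eq (r : ℝ) (z : V) : TT v r z
    = (∫ x in cube, wl v (x + r • z) * wl v x ^ 2) + ∫ x in cube, wl v (x + r • (-z)) * wl v x ^ 2 := by
  have hc1 : Continuous fun x => wl v (x + r • z) :=
    (wl_cont hv).comp (continuous_id.add continuous_const)
  have hp : Per fun x => wl v (x + r • (-z)) * wl v x ^ 2 := fun i x => by
    have h1 : x + Pi.single i 1 + r • (-z) = x + r • (-z) + Pi.single i 1 := by abel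
    simp only [h1, wl_per hv i x, wl_per hv i (x + r • -z)]
  rw [← Pool.Agent.R210.int_shift hp (r • z)]
  have hi1 : IntegrableOn (fun x => wl v (x + r • z) * wl v x ^ 2) cube :=
    integrableOn_cube (hc1.mul ((wl_cont hv).pow 2))
  have e : ∀ x, x + r • z + r • -z = x := fun x => by simp
  simp_rw [e]
  have hi2 : IntegrableOn (fun x => wl v x * wl v (x + r • z) ^ 2) cube :=
    integrableOn_cube ((wl_cont hv).mul (hc1.pow 2))
  rw [← integral_add hi1 hi2]
  unfold TT
  congr 1
  funext x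
  ring

include hv in
theorem TT_cont (r : ℝ) : Continuous (TT v r) := by
  have hj : Continuous fun p : V × V =>
      wl v p.2 * wl v (p.2 + r • p.1) * (wl v p.2 + wl v (p.2 + r • p.1)) := by
    have h1 : Continuous fun p : V × V => wl v (p.2 + r • p.1) := (wl_cont hv).comp (cont_pair r)
    have h2 : Continuous fun p : V × V => wl v p.2 := (wl_cont hv).comp continuous_snd
    exact (h2.mul h1).mul (h2.add h1)
  exact continuous_parametric_integral_of_continuous hj isCompact_Icc

include hv hdiv in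
theorem int_TT_far {r : ℝ} (hr : 0 < r) (hr2 : r ≤ 1 / 2) :
    ∫ z, bmp 1 1 z * TT v r z ≤ 6 * r ^ (-(3 / 2) : ℝ) * Real.sqrt (enstrophy v) ^ 3 := by
  have hU : Continuous fun z : V => ∫ x in cube, wl v (x + r • z) * wl v x ^ 2 := by
    have hj : Continuous fun p : V × V => wl v (p.2 + r • p.1) * wl v p.2 ^ 2 := by
      have h1 : Continuous fun p : V × V => wl v (p.2 + r • p.1) := (wl_cont hv).comp (cont_pair r)
      have h2 : Continuous fun p : V × V => wl v p.2 := (wl_cont hv).comp continuous_snd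
      exact h1.mul (h2.pow 2)
    exact continuous_parametric_integral_of_continuous hj isCompact_Icc
  have i1 : Integrable fun z : V => bmp 1 1 z * ∫ x in cube, wl v (x + r • z) * wl v x ^ 2 :=
    int_bmp 0 1 hU
  have i2 : Integrable fun z : V => bmp 1 1 z * ∫ x in cube, wl v (x + r • (-z)) * wl v x ^ 2 :=
    int_bmp 0 1 (f := fun z => ∫ x in cube, wl v (x + r • (-z)) * wl v x ^ 2)
      (hU.comp continuous_neg)
  have e1 : ∫ z, bmp 1 1 z * TT v r z
      = (∫ z, bmp 1 1 z * ∫ x in cube, wl v (x + r • z) * wl v x ^ 2)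
        + ∫ z, bmp 1 1 z * ∫ x in cube, wl v (x + r • (-z)) * wl v x ^ 2 := by
    rw [← integral_add i1 i2]
    congr 1
    funext z
    rw [TT_eq hv]
    ring
  have e2 : ∫ z, bmp 1 1 z * ∫ x in cube, wl v (x + r • (-z)) * wl v x ^ 2
      = ∫ z, bmp 1 1 z * ∫ x in cube, wl v (x + r • z) * wl v x ^ 2 := by
    have h := integral_neg_eq_self
      (fun z : V => bmp 1 1 z * ∫ x in cube, wl v (x + r • z) * wl v x ^ 2) volume
    simp_rw [bmp_neg] at h
    exact h
  have h3 := tb (f := fun x => wl v x ^ 2) ((wl_cont hv).pow 2) (wl_cont hv) (wl_per hv) hr hr2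
  have e4 : ∀ x z, |wl v x ^ 2| * |wl v (x + r • z)| = wl v (x + r • z) * wl v x ^ 2 := fun x z => by
    rw [abs_of_nonneg (sq_nonneg _), abs_of_nonneg (wl_nonneg _), mul_comm]
  simp_rw [e4] at h3
  have e5 : ∀ x, |wl v x ^ 2| = wl v x ^ 2 := fun x => abs_of_nonneg (sq_nonneg _)
  simp_rw [e5] at h3
  rw [int_wl_sq hv hdiv, nrm_wl hv hdiv] at h3
  rw [e1, e2]
  have h6 : Real.sqrt (enstrophy v) ^ 2 = enstrophy v := Real.sq_sqrt (enstrophy_nonneg v)
  have h7 : 6 * r ^ (-(3 / 2) : ℝ) * Real.sqrt (enstrophy v) ^ 3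
      = 2 * (enstrophy v * (3 * r ^ (-(3 / 2) : ℝ) * Real.sqrt (enstrophy v))) := by
    nth_rewrite 2 [← h6]
    ring
  rw [h7]
  linarith

end

theorem int_bmp1_pos : 0 < ∫ z : V, bmp 1 1 z := by
  refine (integral_pos_iff_support_of_nonneg (fun z => bmp_nonneg _ _ _) ?_).2 ?_
  · have := int_bmp 0 1 (f := fun _ => 1) continuous_const
    simpa using this
  · have hopen : IsOpen (Function.support fun z : V => bmp 1 1 z) :=
      (bmp_cont 1 1).isOpen_support
    refine hopen.measure_pos _ ⟨0, ?_⟩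
    simp [bmp, rho]

/-- The pairs with distance at most `ρ` satisfy the one-sided inequality. -/
def PairLE (ν Λ γ β ρ : ℝ) (η : ℝ → ℝ) (w : V → V) : Prop :=
  ∀ x y : V, 0 < len y → len y < ρ →
    (y ⬝ᵥ (w (x + y) - w x)) * (y ⬝ᵥ crossProduct (w x) (w (x + y)))
      ≤ (ν * η (len y) + Λ * len y ^ 2) * len (w (x + y) - w x) ^ 2
        + γ * len y ^ (2 + β) * (len (w x) * len (w (x + y)) * (len (w x) + len (w (x + y))))

section

variable {v : V → V} (hv : ∀ i, SP (fun y => v y i))
  (hdiv : ∀ x, ∑ i, pd i (fun y => v y i) x = 0)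

include hv in
theorem pairInt_le {ν Λ γ β ρ : ℝ} {η : ℝ → ℝ} (hν : 0 ≤ ν) (hΛ : 0 ≤ Λ) (hγ : 0 ≤ γ) (hβ : 0 ≤ β)
    (hη0 : ∀ r ∈ Ioo 0 ρ, 0 ≤ η r) (hηm : MonotoneOn η (Ioo 0 ρ))
    (h : PairLE ν Λ γ β ρ η (vort v)) {r : ℝ} (hr : r ∈ Ioo 0 ρ) {z : V} (hz : bmp 1 1 z ≠ 0) :
    pairInt (vort v) r z ≤ (ν * η r / r ^ 2 + Λ) * D2 v r z + γ * r ^ β * TT v r z := by
  have hr0 : 0 < r := hr.1
  have hz1 : rho z < 1 ^ 2 := by
    by_contra h2
    exact hz (bmp_zero (n := 0) (not_lt.1 h2))
  have hl1 : len z < 1 := by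
    have h1 : len z ^ 2 < 1 ^ 2 := by rw [len_sq]; exact hz1
    exact lt_of_pow_lt_pow_left₀ 2 zero_le_one h1
  have hηr := hη0 r hr
  have hr2 : 0 < r ^ 2 := by positivity
  have hrβ : 0 < r ^ β := Real.rpow_pos_of_pos hr0 _
  -- pointwise
  have hpt : ∀ x, (z ⬝ᵥ (vort v (x + r • z) - vort v x))
      * (z ⬝ᵥ crossProduct (vort v x) (vort v (x + r • z)))
      ≤ (ν * η r / r ^ 2 + Λ) * (∑ i, (W v i (x + r • z) - W v i x) ^ 2)
        + γ * r ^ β * (wl v x * wl v (x + r • z) * (wl v x + wl v (x + r • z))) := by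
    intro x
    have hS0 : 0 ≤ ∑ i, (W v i (x + r • z) - W v i x) ^ 2 := Finset.sum_nonneg fun _ _ => sq_nonneg _
    have hT0 : 0 ≤ wl v x * wl v (x + r • z) * (wl v x + wl v (x + r • z)) :=
      mul_nonneg (mul_nonneg (wl_nonneg _) (wl_nonneg _)) (add_nonneg (wl_nonneg _) (wl_nonneg _))
    have hR0 : 0 ≤ (ν * η r / r ^ 2 + Λ) * (∑ i, (W v i (x + r • z) - W v i x) ^ 2)
        + γ * r ^ β * (wl v x * wl v (x + r • z) * (wl v x + wl v (x + r • z))) := by
      have : 0 ≤ ν * η r / r ^ 2 := by positivity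
      positivity
    rcases (len_nonneg z).eq_or_lt with h0 | h0
    · have hz0 : z = 0 := by
        have h1 : rho z = 0 := by rw [← len_sq, ← h0]; ring
        funext i
        have h2 := sq_le_rho z i
        rw [h1] at h2
        exact pow_eq_zero_iff (two_ne_zero) |>.1 (le_antisymm h2 (sq_nonneg _))
      rw [hz0] at hR0 ⊢
      simpa using hR0
    · have hly : len (r • z) = r * len z := len_smul hr0.le z
      have hlr : len (r • z) < r := by rw [hly]; nlinarith
      have hly0 : 0 < len (r • z) := by rw [hly]; positivity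
      have h1 := h x (r • z) hly0 (hlr.trans hr.2)
      have h2 : (r • z ⬝ᵥ (vort v (x + r • z) - vort v x)) *
          (r • z ⬝ᵥ crossProduct (vort v x) (vort v (x + r • z)))
          = r ^ 2 * ((z ⬝ᵥ (vort v (x + r • z) - vort v x))
            * (z ⬝ᵥ crossProduct (vort v x) (vort v (x + r • z)))) := by
        rw [smul_dotProduct, smul_dotProduct, smul_eq_mul, smul_eq_mul]
        ring
      rw [h2] at h1
      have h3 : len (vort v (x + r • z) - vort v x) ^ 2
          = ∑ i, (W v i (x + r • z) - W v i x) ^ 2 := len_sq _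
      rw [h3] at h1
      have h4 : η (len (r • z)) ≤ η r := hηm ⟨hly0, hlr.trans hr.2⟩ hr hlr.le
      have h5 : len (r • z) ^ 2 ≤ r ^ 2 := pow_le_pow_left₀ (len_nonneg _) hlr.le 2
      have h6 : len (r • z) ^ (2 + β) ≤ r ^ 2 * r ^ β := by
        have : r ^ 2 * r ^ β = r ^ (2 + β) := by
          rw [Real.rpow_add hr0]
          norm_cast
        rw [this]
        exact Real.rpow_le_rpow (len_nonneg _) hlr.le (by linarith)
      have h7 : (ν * η (len (r • z)) + Λ * len (r • z) ^ 2) ≤ ν * η r + Λ * r ^ 2 := by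
        have a1 := mul_le_mul_of_nonneg_left h4 hν
        have a2 := mul_le_mul_of_nonneg_left h5 hΛ
        linarith
      have h8 := mul_le_mul_of_nonneg_right h7 hS0
      have h9 := mul_le_mul_of_nonneg_right (mul_le_mul_of_nonneg_left h6 hγ) hT0
      have h10 : r ^ 2 * ((z ⬝ᵥ (vort v (x + r • z) - vort v x))
            * (z ⬝ᵥ crossProduct (vort v x) (vort v (x + r • z))))
          ≤ r ^ 2 * ((ν * η r / r ^ 2 + Λ) * (∑ i, (W v i (x + r • z) - W v i x) ^ 2)
        + γ * r ^ β * (wl v x * wl v (x + r • z) * (wl v x + wl v (x + r • z)))) := by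
        refine h1.trans ?_
        have e1 : r ^ 2 * ((ν * η r / r ^ 2 + Λ) * (∑ i, (W v i (x + r • z) - W v i x) ^ 2)
            + γ * r ^ β * (wl v x * wl v (x + r • z) * (wl v x + wl v (x + r • z))))
            = (ν * η r + Λ * r ^ 2) * (∑ i, (W v i (x + r • z) - W v i x) ^ 2)
            + γ * (r ^ 2 * r ^ β) * (wl v x * wl v (x + r • z) * (wl v x + wl v (x + r • z))) := by
          field_simp
        rw [e1]
        exact add_le_add h8 h9
      exact le_of_mul_le_mul_left h10 hr2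
  have hc1 : Continuous fun x => wl v (x + r • z) :=
    (wl_cont hv).comp (continuous_id.add continuous_const)
  have hiD : ∀ i, IntegrableOn (fun x => (W v i (x + r • z) - W v i x) ^ 2) cube := fun i =>
    integrableOn_cube (((SP.shift (spW hv i) (r • z)).cont.sub (spW hv i).cont).pow 2)
  have hiT : IntegrableOn (fun x => wl v x * wl v (x + r • z) * (wl v x + wl v (x + r • z))) cube :=
    integrableOn_cube (((wl_cont hv).mul hc1).mul ((wl_cont hv).add hc1))
  have hiS : IntegrableOn (fun x => ∑ i, (W v i (x + r • z) - W v i x) ^ 2) cube :=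
    integrable_finsetSum _ fun i _ => hiD i
  have hiP : IntegrableOn (fun x => (z ⬝ᵥ (vort v (x + r • z) - vort v x))
      * (z ⬝ᵥ crossProduct (vort v x) (vort v (x + r • z)))) cube := by
    have h1 := (sp_dot hv z (r • z)).cont
    have h2 := (sp_dot hv z 0).cont
    have h3 := (sp_cross hv z 0 (r • z)).cont
    simp only [add_zero] at h2 h3
    refine integrableOn_cube (Continuous.mul ?_ h3)
    have e : (fun x => z ⬝ᵥ (vort v (x + r • z) - vort v x))
        = fun x => z ⬝ᵥ vort v (x + r • z) - z ⬝ᵥ vort v x := by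
      funext x
      rw [dotProduct_sub]
    rw [e]
    exact h1.sub h2
  have h11 := integral_mono hiP ((hiS.const_mul (ν * η r / r ^ 2 + Λ)).add
    (hiT.const_mul (γ * r ^ β))) hpt
  have e2 : ∫ x in cube, ((ν * η r / r ^ 2 + Λ) * (∑ i, (W v i (x + r • z) - W v i x) ^ 2)
      + γ * r ^ β * (wl v x * wl v (x + r • z) * (wl v x + wl v (x + r • z))))
      = (ν * η r / r ^ 2 + Λ) * D2 v r z + γ * r ^ β * TT v r z := by
    rw [integral_add (hiS.const_mul _) (hiT.const_mul _), integral_const_mul, integral_const_mul,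
      integral_finsetSum _ fun i _ => hiD i]
    rfl
  rw [← e2]
  exact h11

include hv in
theorem near_le {ν Λ γ β ρ : ℝ} {η : ℝ → ℝ} (hν : 0 ≤ ν) (hΛ : 0 ≤ Λ) (hγ : 0 ≤ γ) (hβ : 0 ≤ β)
    (hη0 : ∀ r ∈ Ioo 0 ρ, 0 ≤ η r) (hηm : MonotoneOn η (Ioo 0 ρ))
    (h : PairLE ν Λ γ β ρ η (vort v)) {r : ℝ} (hr : r ∈ Ioo 0 ρ) :
    2 / r * ∫ z, bmp 1 1 z * pairInt (vort v) r z
      ≤ 2 / r * ((ν * η r / r ^ 2 + Λ) * (∫ z, bmp 1 1 z * D2 v r z)
        + γ * r ^ β * ∫ z, bmp 1 1 z * TT v r z) := by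
  have hr0 : 0 < r := hr.1
  refine mul_le_mul_of_nonneg_left ?_ (by positivity)
  have i1 : Integrable fun z => bmp 1 1 z * pairInt (vort v) r z :=
    int_bmp 0 1 (pairInt_cont hv r)
  have i2 : Integrable fun z => bmp 1 1 z * D2 v r z := int_bmp 0 1 (D2_cont hv r)
  have i3 : Integrable fun z => bmp 1 1 z * TT v r z := int_bmp 0 1 (TT_cont hv r)
  rw [← integral_const_mul, ← integral_const_mul, ← integral_add (i2.const_mul _) (i3.const_mul _)]
  refine integral_mono i1 ((i2.const_mul _).add (i3.const_mul _)) fun z => ?_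
  simp only
  by_cases h0 : bmp 1 1 z = 0
  · rw [h0]; simp
  · have h1 := mul_le_mul_of_nonneg_left
      (pairInt_le hv hν hΛ hγ hβ hη0 hηm h hr h0) (bmp_nonneg 1 1 z)
    refine h1.trans (le_of_eq ?_)
    ring

end

end Pool.Agent.U570.VP
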