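import Pool.Agent.U570.VP.Near

/-!
The bound of the enstrophy production at a fixed time.
-/

open MeasureTheory Set Filter Topology
open scoped ContDiff ENNReal

namespace Pool.Agent.U570.VP

open H459R3.NS
open Pool.Agent.TH340.PS (bmp bmp_cont bmp_compact bmp_nonneg bmp_neg bmp_zero rho sq_le_rho ibp_bmp
  int_bmp pd_coord rho_nonneg rho_neg rho_cont)
open Pool.Agent.W268.NS

theorem ind_integrable {f : ℝ → ℝ} {a ρ : ℝ}
    (hf : ContinuousOn f (Icc a ρ)) : IntegrableOn ((Ioi a).indicator f) (Icc 0 ρ) := by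
  rw [IntegrableOn, integrable_indicator_iff measurableSet_Ioi, IntegrableOn,
    Measure.restrict_restrict measurableSet_Ioi]
  refine (hf.integrableOn_Icc (μ := volume)).mono_set ?_
  rintro x ⟨h1, h2⟩
  exact ⟨(mem_Ioi.1 h1).le, h2.2⟩

theorem ind_right {f : ℝ → ℝ} {a ρ : ℝ} (ha : 0 < a) (hρ : 0 ≤ ρ) :
    ∫ r in (0 : ℝ)..ρ, (Ioi a).indicator f r = if a ≤ ρ then ∫ r in a..ρ, f r else 0 := by
  rw [intervalIntegral.integral_of_le hρ, setIntegral_indicator measurableSet_Ioi]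
  have e : Ioc 0 ρ ∩ Ioi a = Ioc a ρ := by
    ext x
    simp only [mem_inter_iff, mem_Ioc, mem_Ioi]
    constructor
    · rintro ⟨⟨h1, h2⟩, h3⟩; exact ⟨h3, h2⟩
    · rintro ⟨h1, h2⟩; exact ⟨⟨by linarith, h2⟩, h1⟩
  rw [e]
  split_ifs with h
  · rw [intervalIntegral.integral_of_le h]
  · rw [Ioc_eq_empty (by linarith), setIntegral_empty]

theorem ind_left {f : ℝ → ℝ} {a ρ : ℝ} (ha : 0 < a) (hρ : 0 ≤ ρ) :
    ∫ r in (0 : ℝ)..ρ, (Iic a).indicator f r = ∫ r in (0 : ℝ)..(min ρ a), f r := by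
  rw [intervalIntegral.integral_of_le hρ, setIntegral_indicator measurableSet_Iic,
    intervalIntegral.integral_of_le (le_min hρ ha.le)]
  have e : Ioc 0 ρ ∩ Iic a = Ioc 0 (min ρ a) := by
    ext x
    simp only [mem_inter_iff, mem_Ioc, mem_Iic, le_min_iff]
    tauto
  rw [e]

theorem int_log {A B a ρ : ℝ} (hA : 0 ≤ A) (hB : 0 ≤ B) (ha : 0 < a) (hρ : 0 < ρ)
    (hρ1 : ρ ≤ 1) :
    IntegrableOn (fun r => (Iic a).indicator (fun r => A * r) r
      + (Ioi a).indicator (fun r => B / r) r) (Icc 0 ρ) ∧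
    ∫ r in (0 : ℝ)..ρ, ((Iic a).indicator (fun r => A * r) r
      + (Ioi a).indicator (fun r => B / r) r) ≤ A * a ^ 2 / 2 + B * |Real.log a| := by
  have i1 : IntegrableOn ((Iic a).indicator (fun r => A * r)) (Icc 0 ρ) :=
    IntegrableOn.indicator (continuous_const.mul continuous_id).continuousOn.integrableOn_Icc
      measurableSet_Iic
  have i2 : IntegrableOn ((Ioi a).indicator (fun r => B / r)) (Icc 0 ρ) :=
    ind_integrable (continuousOn_const.div continuousOn_id fun x hx =>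
      (ha.trans_le hx.1).ne')
  refine ⟨i1.add i2, ?_⟩
  rw [intervalIntegral.integral_add ((intervalIntegrable_iff_integrableOn_Icc_of_le hρ.le).2 i1)
    ((intervalIntegrable_iff_integrableOn_Icc_of_le hρ.le).2 i2), ind_left ha hρ.le,
    ind_right ha hρ.le]
  refine add_le_add ?_ ?_
  · rw [intervalIntegral.integral_const_mul, integral_id]
    have h1 : (min ρ a) ^ 2 ≤ a ^ 2 := pow_le_pow_left₀ (le_min hρ.le ha.le) (min_le_right _ _) 2
    have h2 := mul_le_mul_of_nonneg_left h1 hA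
    linarith
  · split_ifs with h
    · have e : ∫ r in a..ρ, B / r = B * (Real.log ρ - Real.log a) := by
        simp_rw [div_eq_mul_inv]
        rw [intervalIntegral.integral_const_mul, integral_inv_of_pos ha hρ,
          Real.log_div hρ.ne' ha.ne']
      rw [e]
      refine mul_le_mul_of_nonneg_left ?_ hB
      have h1 := Real.log_nonpos hρ.le hρ1
      have h2 := neg_abs_le (Real.log a)
      linarith
    · positivity

theorem int_pow {A B a ρ p q : ℝ} (hA : 0 ≤ A) (hB : 0 ≤ B) (ha : 0 < a) (hρ : 0 < ρ)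
    (hp : 0 < p) (hq : q < 0) :
    IntegrableOn (fun r => (Iic a).indicator (fun r => A * r ^ (p - 1)) r
      + (Ioi a).indicator (fun r => B * r ^ (q - 1)) r) (Icc 0 ρ) ∧
    ∫ r in (0 : ℝ)..ρ, ((Iic a).indicator (fun r => A * r ^ (p - 1)) r
      + (Ioi a).indicator (fun r => B * r ^ (q - 1)) r) ≤ A * a ^ p / p + B * a ^ q / (-q) := by
  have j1 : IntervalIntegrable (fun r => A * r ^ (p - 1)) volume 0 ρ :=
    (intervalIntegral.intervalIntegrable_rpow' (by linarith)).const_mul _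
  have i1 : IntegrableOn ((Iic a).indicator (fun r => A * r ^ (p - 1))) (Icc 0 ρ) :=
    IntegrableOn.indicator ((intervalIntegrable_iff_integrableOn_Icc_of_le hρ.le).1 j1)
      measurableSet_Iic
  have i2 : IntegrableOn ((Ioi a).indicator (fun r => B * r ^ (q - 1))) (Icc 0 ρ) :=
    ind_integrable (continuousOn_const.mul (ContinuousOn.rpow_const continuousOn_id
      fun x hx => Or.inl (ha.trans_le hx.1).ne'))
  refine ⟨i1.add i2, ?_⟩
  rw [intervalIntegral.integral_add ((intervalIntegrable_iff_integrableOn_Icc_of_le hρ.le).2 i1)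
    ((intervalIntegrable_iff_integrableOn_Icc_of_le hρ.le).2 i2), ind_left ha hρ.le,
    ind_right ha hρ.le]
  refine add_le_add ?_ ?_
  · rw [intervalIntegral.integral_const_mul, integral_rpow (Or.inl (by linarith))]
    rw [sub_add_cancel, Real.zero_rpow hp.ne', sub_zero, ← mul_div_assoc]
    have h1 : (min ρ a) ^ p ≤ a ^ p := Real.rpow_le_rpow (le_min hρ.le ha.le) (min_le_right _ _) hp.le
    gcongr
  · split_ifs with h
    · rw [intervalIntegral.integral_const_mul, integral_rpow (Or.inr ⟨by linarith, by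
        rw [uIcc_of_le h]; exact fun hh => absurd hh.1 (by linarith)⟩)]
      rw [sub_add_cancel]
      have h1 : 0 ≤ ρ ^ q := Real.rpow_nonneg hρ.le _
      have e : B * ((ρ ^ q - a ^ q) / q) = B * ((a ^ q - ρ ^ q) / (-q)) := by
        rw [div_neg, ← neg_div]; ring_nf
      rw [e, mul_div_assoc]
      refine mul_le_mul_of_nonneg_left ?_ hB
      gcongr
      · linarith
      · linarith
    · have := Real.rpow_nonneg ha.le q
      have : 0 < -q := by linarith
      positivity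

theorem sum_mul_le {x y z p q r : ℝ} (hx : 0 ≤ x) (hy : 0 ≤ y) (hz : 0 ≤ z) (hp : 0 ≤ p)
    (hq : 0 ≤ q) (hr : 0 ≤ r) : x * p + y * q + z * r ≤ (x + y + z) * (p + q + r) := by
  have h1 := mul_nonneg hx hq
  have h2 := mul_nonneg hx hr
  have h3 := mul_nonneg hy hp
  have h4 := mul_nonneg hy hr
  have h5 := mul_nonneg hz hp
  have h6 := mul_nonneg hz hq
  linarith [show (x + y + z) * (p + q + r) = x * p + y * q + z * r + x * q + x * r + y * p + y * r
    + z * p + z * q by ring]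

section

variable {v : V → V} (hv : ∀ i, SP (fun y => v y i))
  (hdiv : ∀ x, ∑ i, pd i (fun y => v y i) x = 0)

include hv hdiv in
theorem enst_le_palin : enstrophy v ≤ palin v := by
  rw [← enst_eq hv hdiv, ← palin_eq hv hdiv]
  refine Finset.sum_le_sum fun i _ => ?_
  rw [← nrm_sq, ← grd_sq]
  exact pow_le_pow_left₀ (nrm_nonneg _) (poincare (spW hv i) (int_W_zero hv i)) 2

include hv hdiv in
theorem stretch_zero (h : enstrophy v = 0) : ∫ x in cube, stretchRate v x = 0 := by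
  rw [← enst_eq hv hdiv] at h
  have h1 : ∀ i, ∫ x in cube, W v i x ^ 2 = 0 := by
    intro i
    have h2 := (Finset.sum_eq_zero_iff_of_nonneg (fun i _ =>
      integral_nonneg fun x => sq_nonneg (W v i x))).1 h i (Finset.mem_univ i)
    exact h2
  have h2 : ∀ i, ∀ᵐ x ∂(volume.restrict cube), W v i x = 0 := by
    intro i
    have h3 := (integral_eq_zero_iff_of_nonneg (fun x => sq_nonneg (W v i x))
      (integrableOn_cube ((spW hv i).cont.pow 2))).1 (h1 i)
    filter_upwards [h3] with x hx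
    exact pow_eq_zero_iff two_ne_zero |>.1 hx
  have h4 : ∀ᵐ x ∂(volume.restrict cube), stretchRate v x = 0 := by
    filter_upwards [ae_all_iff.2 h2] with x hx
    unfold stretchRate
    refine Finset.sum_eq_zero fun i _ => Finset.sum_eq_zero fun j _ => ?_
    rw [vort_apply, hx i]
    ring
  rw [integral_congr_ae h4]
  simp

end

/-- The bound of the enstrophy production. -/
theorem stretch_le {ε ν β κ : ℝ} (hε : 0 < ε) (hν : 0 < ν) (hβ : 0 < β) (hβ' : β < 3 / 2) :
    ∃ D : ℝ, 0 ≤ D ∧ ∀ v : V → V, (∀ i, SP (fun y => v y i)) →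
      (∀ x, ∑ i, pd i (fun y => v y i) x = 0) → ∀ (ρ Λ γ : ℝ) (η : ℝ → ℝ), 0 < ρ → ρ ≤ 1 / 2 →
      0 ≤ Λ → 0 ≤ γ → (∀ r ∈ Ioo 0 ρ, 0 ≤ η r) → MonotoneOn η (Ioo 0 ρ) →
      IntegrableOn (fun r => η r / r) (Ioo 0 ρ) → ∫ r in Ioo 0 ρ, η r / r ≤ κ →
      PairLE ν Λ γ β ρ η (vort v) →
      ∫ x in cube, stretchRate v x ≤ (κ / 2 + ε) * (ν * palin v)
        + D * (ρ ^ (-(5 / 2) : ℝ) * Real.sqrt (energy v) + Λ * Real.log (2 + Λ)
          + (γ * Real.sqrt (enstrophy v)) ^ (4 / (1 + 2 * β))) * enstrophy v := by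
  obtain ⟨C, hC0, hC⟩ := exists_cube_bound
  set m1 := ∫ z : V, bmp 1 1 z with hm1
  set m2 := ∫ z : V, bmp 2 1 z with hm2
  have hm1p : 0 < m1 := int_bmp1_pos
  have hm2p : 0 < m2 := int_bmp2_pos
  set c3 : ℝ := 4 * m1 * C / β + 12 / (3 / 2 - β) with hc3
  have hβ2 : 0 < 3 / 2 - β := by linarith
  have hc30 : 0 ≤ c3 := by positivity
  obtain ⟨D1, hD10, hD1⟩ := young2 (θ := 3 / 2 - β) (ε := m2 * (ε / 2) * ν) (c := c3)
    (by linarith) (by linarith) (by positivity) hc30
  set L : ℝ := |Real.log (2 * ε * ν)| / Real.log 2 + 1 with hL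
  have hlog2 : 0 < Real.log 2 := Real.log_pos (by norm_num)
  have hL0 : 0 ≤ L := by positivity
  refine ⟨108 / m2 + 4 * m1 / m2 * L + D1 / m2, by positivity, ?_⟩
  intro v hv hdiv ρ Λ γ η hρ hρ2 hΛ hγ hη0 hηm hηi hηκ hpair
  have hκ : 0 ≤ κ := (setIntegral_nonneg measurableSet_Ioo fun r hr =>
    div_nonneg (hη0 r hr) hr.1.le).trans hηκ
  set a := Real.sqrt (enstrophy v) with ha
  set b := Real.sqrt (palin v) with hb
  have ha0 : 0 ≤ a := Real.sqrt_nonneg _
  have hb0 : 0 ≤ b := Real.sqrt_nonneg _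
  have ha2 : a ^ 2 = enstrophy v := Real.sq_sqrt (enstrophy_nonneg v)
  have hb2 : b ^ 2 = palin v := Real.sq_sqrt (palin_nonneg v)
  set E := Real.sqrt (energy v) with hE
  have hE0 : 0 ≤ E := Real.sqrt_nonneg _
  have hlogΛ : 0 < Real.log (2 + Λ) := Real.log_pos (by linarith)
  set R := ρ ^ (-(5 / 2) : ℝ) with hR
  have hR0 : 0 ≤ R := Real.rpow_nonneg hρ.le _
  set Q := (γ * a) ^ (4 / (1 + 2 * β)) with hQ
  have hQ0 : 0 ≤ Q := Real.rpow_nonneg (by positivity) _
  rcases (enstrophy_nonneg v).eq_or_lt with hz | hpos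
  · rw [stretch_zero hv hdiv hz.symm, ← hz, mul_zero, add_zero]
    have := palin_nonneg v
    positivity
  have hap : 0 < a := Real.sqrt_pos.2 hpos
  have hbp : 0 < b := Real.sqrt_pos.2 (hpos.trans_le (enst_le_palin hv hdiv))
  -- the two radii
  set r1 := a / b with hr1
  have hr1p : 0 < r1 := by positivity
  set r2 := Real.sqrt (2 * ε * ν / (1 + Λ)) with hr2
  have hr2p : 0 < r2 := Real.sqrt_pos.2 (by positivity)
  have hr2sq : r2 ^ 2 = 2 * ε * ν / (1 + Λ) := Real.sq_sqrt (by positivity)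
  set A1 : ℝ := 4 * m1 * C * (a * (a ^ (2 - 3 / 2 : ℝ) * b ^ (3 / 2 : ℝ))) with hA1
  have hA10 : 0 ≤ A1 := by positivity
  obtain ⟨il, hl⟩ := int_log (A := m2 / 2 * b ^ 2) (B := 8 * m1 * a ^ 2) (a := r2) (ρ := ρ)
    (by positivity) (by positivity) hr2p hρ (by linarith)
  obtain ⟨ip, hp⟩ := int_pow (A := A1) (B := 12 * a ^ 3) (a := r1) (ρ := ρ) (p := β)
    (q := β - 3 / 2) hA10 (by positivity) hr1p hρ hβ (by linarith)
  set gl : ℝ → ℝ := fun r => (Iic r2).indicator (fun r => m2 / 2 * b ^ 2 * r) r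
      + (Ioi r2).indicator (fun r => 8 * m1 * a ^ 2 / r) r with hgl
  set gp : ℝ → ℝ := fun r => (Iic r1).indicator (fun r => A1 * r ^ (β - 1)) r
      + (Ioi r1).indicator (fun r => 12 * a ^ 3 * r ^ (β - 3 / 2 - 1)) r with hgp
  have iη : IntegrableOn (fun r => η r / r) (Icc 0 ρ) := by
    rw [integrableOn_Icc_iff_integrableOn_Ioc, integrableOn_Ioc_iff_integrableOn_Ioo]
    exact hηi
  set g : ℝ → ℝ := fun r => ν * (m2 / 2) * b ^ 2 * (η r / r) + Λ * gl r + γ * gp r with hg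
  have ig : IntegrableOn g (Icc 0 ρ) := ((iη.const_mul _).add (il.const_mul _)).add (ip.const_mul _)
  have hmain := prod_le hv hdiv hρ.le ig (fun r hr => by
    have hr0 : 0 < r := hr.1
    refine (near_le hv hν.le hΛ hγ hβ.le hη0 hηm hpair hr).trans ?_
    have hηr := hη0 r hr
    have hX1 := int_D2_le hv hdiv r
    rw [← hb2] at hX1
    set X := ∫ z, bmp 1 1 z * D2 v r z with hX
    have hX0 : 0 ≤ X := integral_nonneg fun z => mul_nonneg (bmp_nonneg _ _ _) (D2_nonneg r z)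
    have hX2 : X ≤ 4 * a ^ 2 * m1 := by
      have h1 : X ≤ ∫ z : V, bmp 1 1 z * (4 * a ^ 2) := by
        refine integral_mono (int_bmp 0 1 (D2_cont hv r)) (int_bmp 0 1 continuous_const) fun z => ?_
        refine mul_le_mul_of_nonneg_left ?_ (bmp_nonneg _ _ _)
        rw [ha2]
        exact D2_le hv hdiv r z
      rw [integral_mul_const] at h1
      linarith
    set Y := ∫ z, bmp 1 1 z * TT v r z with hY
    have hY1 : Y ≤ m1 * (2 * C * (a * (a ^ (2 - 3 / 2 : ℝ) * b ^ (3 / 2 : ℝ)))) := by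
      have h1 : Y ≤ ∫ z : V, bmp 1 1 z * (2 * C * (a * (a ^ (2 - 3 / 2 : ℝ) * b ^ (3 / 2 : ℝ)))) := by
        refine integral_mono (int_bmp 0 1 (TT_cont hv r)) (int_bmp 0 1 continuous_const) fun z => ?_
        refine mul_le_mul_of_nonneg_left ?_ (bmp_nonneg _ _ _)
        rw [TT_eq hv]
        have h2 := hC v hv hdiv (r • z)
        have h3 := hC v hv hdiv (r • (-z))
        linarith
      rw [integral_mul_const] at h1
      exact h1
    have hY2 := int_TT_far hv hdiv hr0 (hr.2.le.trans hρ2)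
    rw [← hY] at hY2
    have hrβ : 0 < r ^ β := Real.rpow_pos_of_pos hr0 _
    -- the viscous part
    have e1 : 2 / r * ((ν * η r / r ^ 2 + Λ) * X + γ * r ^ β * Y)
        = 2 / r * (ν * η r / r ^ 2) * X + Λ * (2 / r * X) + γ * (2 / r * r ^ β * Y) := by ring
    rw [e1, hg]
    simp only
    refine add_le_add (add_le_add ?_ ?_) ?_
    · have h1 : 2 / r * (ν * η r / r ^ 2) * X ≤ 2 / r * (ν * η r / r ^ 2) * (r ^ 2 * (m2 / 4 * b ^ 2)) :=
        mul_le_mul_of_nonneg_left hX1 (by positivity)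
      refine h1.trans (le_of_eq ?_)
      field_simp
      ring
    · refine mul_le_mul_of_nonneg_left ?_ hΛ
      rw [hgl]
      simp only
      by_cases h : r ≤ r2
      · rw [indicator_of_mem (mem_Iic.2 h), indicator_of_notMem (by simpa using h), add_zero]
        have h1 : 2 / r * X ≤ 2 / r * (r ^ 2 * (m2 / 4 * b ^ 2)) :=
          mul_le_mul_of_nonneg_left hX1 (by positivity)
        refine h1.trans (le_of_eq ?_)
        field_simp
        ring
      · rw [indicator_of_notMem (by simpa using h), indicator_of_mem (mem_Ioi.2 (not_le.1 h)),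
          zero_add]
        have h1 : 2 / r * X ≤ 2 / r * (4 * a ^ 2 * m1) :=
          mul_le_mul_of_nonneg_left hX2 (by positivity)
        refine h1.trans (le_of_eq ?_)
        field_simp
        ring
    · refine mul_le_mul_of_nonneg_left ?_ hγ
      rw [hgp]
      simp only
      have e2 : 2 / r * r ^ β = 2 * r ^ (β - 1) := by
        rw [Real.rpow_sub_one hr0.ne']
        ring
      rw [e2]
      have hrb1 : 0 ≤ r ^ (β - 1) := Real.rpow_nonneg hr0.le _
      by_cases h : r ≤ r1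
      · rw [indicator_of_mem (mem_Iic.2 h), indicator_of_notMem (by simpa using h), add_zero]
        have h1 := mul_le_mul_of_nonneg_left hY1 (by positivity : 0 ≤ 2 * r ^ (β - 1))
        refine h1.trans (le_of_eq ?_)
        rw [hA1]
        ring
      · rw [indicator_of_notMem (by simpa using h), indicator_of_mem (mem_Ioi.2 (not_le.1 h)),
          zero_add]
        have h1 := mul_le_mul_of_nonneg_left hY2 (by positivity : 0 ≤ 2 * r ^ (β - 1))
        refine h1.trans (le_of_eq ?_)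
        have e3 : r ^ (β - 3 / 2 - 1) = r ^ (β - 1) * r ^ (-(3 / 2) : ℝ) := by
          rw [← Real.rpow_add hr0]
          congr 1
          ring
        rw [e3, ← ha]
        ring)
  -- the integral of `g`
  have hgint : ∫ r in (0 : ℝ)..ρ, g r ≤ ν * (m2 / 2) * b ^ 2 * κ
      + Λ * (m2 / 2 * b ^ 2 * r2 ^ 2 / 2 + 8 * m1 * a ^ 2 * |Real.log r2|)
      + γ * (A1 * r1 ^ β / β + 12 * a ^ 3 * r1 ^ (β - 3 / 2) / (-(β - 3 / 2))) := by
    have j1 : IntervalIntegrable (fun r => η r / r) volume 0 ρ :=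
      (intervalIntegrable_iff_integrableOn_Icc_of_le hρ.le).2 iη
    have j2 : IntervalIntegrable gl volume 0 ρ :=
      (intervalIntegrable_iff_integrableOn_Icc_of_le hρ.le).2 il
    have j3 : IntervalIntegrable gp volume 0 ρ :=
      (intervalIntegrable_iff_integrableOn_Icc_of_le hρ.le).2 ip
    rw [hg, intervalIntegral.integral_add ((j1.const_mul _).add (j2.const_mul _)) (j3.const_mul _),
      intervalIntegral.integral_add (j1.const_mul _) (j2.const_mul _),
      intervalIntegral.integral_const_mul, intervalIntegral.integral_const_mul,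
      intervalIntegral.integral_const_mul]
    have h1 : ∫ r in (0 : ℝ)..ρ, η r / r ≤ κ := by
      rw [intervalIntegral.integral_of_le hρ.le, integral_Ioc_eq_integral_Ioo]
      exact hηκ
    refine add_le_add (add_le_add (mul_le_mul_of_nonneg_left h1 (by positivity))
      (mul_le_mul_of_nonneg_left hl hΛ)) (mul_le_mul_of_nonneg_left hp hγ)
  -- the far part
  have hfar := (le_abs_self _).trans (psi_far hv hρ hρ2)
  rw [enst_eq hv hdiv, ← ha2, ← hR, ← hE] at hfar
  -- the potential term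
  have hΛ1 : Λ * (m2 / 2 * b ^ 2 * r2 ^ 2 / 2) ≤ m2 * (ε / 2) * ν * b ^ 2 := by
    rw [hr2sq]
    have h1 : Λ / (1 + Λ) ≤ 1 := by
      rw [div_le_one (by linarith)]
      linarith
    have e : Λ * (m2 / 2 * b ^ 2 * (2 * ε * ν / (1 + Λ)) / 2)
        = m2 * (ε / 2) * ν * b ^ 2 * (Λ / (1 + Λ)) := by
      field_simp
    rw [e]
    exact mul_le_of_le_one_right (by positivity) h1
  have hlogr : |Real.log r2| ≤ 1 / 2 * (L * Real.log (2 + Λ)) := by
    have e : Real.log r2 = 1 / 2 * (Real.log (2 * ε * ν) - Real.log (1 + Λ)) := by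
      rw [hr2, Real.log_sqrt (by positivity), Real.log_div (by positivity) (by positivity)]
      ring
    rw [e, abs_mul, abs_of_pos (by norm_num : (0 : ℝ) < 1 / 2)]
    refine mul_le_mul_of_nonneg_left ?_ (by norm_num)
    have h1 : |Real.log (2 * ε * ν) - Real.log (1 + Λ)|
        ≤ |Real.log (2 * ε * ν)| + Real.log (1 + Λ) := by
      have h2 : 0 ≤ Real.log (1 + Λ) := Real.log_nonneg (by linarith)
      have h3 := abs_sub (Real.log (2 * ε * ν)) (Real.log (1 + Λ))
      rwa [abs_of_nonneg h2] at h3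
    have h4 : Real.log (1 + Λ) ≤ Real.log (2 + Λ) := Real.log_le_log (by linarith) (by linarith)
    have h5 : Real.log 2 ≤ Real.log (2 + Λ) := Real.log_le_log (by norm_num) (by linarith)
    have h6 : |Real.log (2 * ε * ν)| ≤ |Real.log (2 * ε * ν)| / Real.log 2 * Real.log (2 + Λ) := by
      have h7 : |Real.log (2 * ε * ν)| = |Real.log (2 * ε * ν)| / Real.log 2 * Real.log 2 := by
        field_simp
      calc |Real.log (2 * ε * ν)| = |Real.log (2 * ε * ν)| / Real.log 2 * Real.log 2 := h7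
        _ ≤ _ := mul_le_mul_of_nonneg_left h5 (by positivity)
    rw [hL, add_mul, one_mul]
    linarith
  have hΛ2 : Λ * (8 * m1 * a ^ 2 * |Real.log r2|)
      ≤ 4 * m1 * L * (Λ * Real.log (2 + Λ)) * a ^ 2 := by
    have h1 := mul_le_mul_of_nonneg_left hlogr (by positivity : 0 ≤ Λ * (8 * m1 * a ^ 2))
    calc Λ * (8 * m1 * a ^ 2 * |Real.log r2|) = Λ * (8 * m1 * a ^ 2) * |Real.log r2| := by ring
      _ ≤ Λ * (8 * m1 * a ^ 2) * (1 / 2 * (L * Real.log (2 + Λ))) := h1
      _ = _ := by ring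
  -- the geometric term
  have hγ1 : γ * (A1 * r1 ^ β / β + 12 * a ^ 3 * r1 ^ (β - 3 / 2) / (-(β - 3 / 2)))
      ≤ m2 * (ε / 2) * ν * b ^ 2 + D1 * Q * a ^ 2 := by
    have h1 := hD1 (γ * a) a b (by positivity) ha0 hb0
    have e1 : (2 : ℝ) / (2 - (3 / 2 - β)) = 4 / (1 + 2 * β) := by
      have a1 : (2 : ℝ) - (3 / 2 - β) ≠ 0 := by linarith
      have a2 : (1 : ℝ) + 2 * β ≠ 0 := by linarith
      rw [div_eq_div_iff a1 a2]
      ring
    rw [e1, ← hQ] at h1
    have e2 : A1 * r1 ^ β = 4 * m1 * C * (a * (a ^ (2 - (3 / 2 - β)) * b ^ (3 / 2 - β))) := by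
      rw [hA1, hr1, Real.div_rpow ha0 hb0]
      have a1 : a ^ (2 - (3 / 2 - β)) = a ^ (2 - 3 / 2 : ℝ) * a ^ β := by
        rw [← Real.rpow_add hap]; congr 1; ring
      have a2 : b ^ (3 / 2 - β) = b ^ (3 / 2 : ℝ) / b ^ β := by
        rw [← Real.rpow_sub hbp]
      rw [a1, a2]
      ring
    have e3 : 12 * a ^ 3 * r1 ^ (β - 3 / 2) = 12 * (a * (a ^ (2 - (3 / 2 - β)) * b ^ (3 / 2 - β))) := by
      rw [hr1, Real.div_rpow ha0 hb0]
      have a1 : a ^ 3 * a ^ (β - 3 / 2) = a * a ^ (2 - (3 / 2 - β)) := by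
        have : a ^ 3 = a ^ (3 : ℝ) := by norm_cast
        rw [this, ← Real.rpow_add hap]
        nth_rewrite 2 [← Real.rpow_one a]
        rw [← Real.rpow_add hap]
        congr 1
        ring
      have a2 : b ^ (3 / 2 - β) = (b ^ (β - 3 / 2))⁻¹ := by
        rw [← Real.rpow_neg hb0]; congr 1; ring
      rw [a2]
      calc 12 * a ^ 3 * (a ^ (β - 3 / 2) / b ^ (β - 3 / 2))
          = 12 * (a ^ 3 * a ^ (β - 3 / 2)) / b ^ (β - 3 / 2) := by ring
        _ = _ := by rw [a1]; ring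
    rw [e2, e3]
    refine le_trans (le_of_eq ?_) (h1.trans (le_of_eq ?_))
    · rw [hc3]
      have : 3 / 2 - β ≠ 0 := hβ2.ne'
      have h6 : -(β - 3 / 2) = 3 / 2 - β := by ring
      rw [h6]
      field_simp
    · ring
  have htot : m2 * ∫ x in cube, stretchRate v x ≤ m2 * ((κ / 2 + ε) * (ν * b ^ 2))
      + (108 * R * E + 4 * m1 * L * (Λ * Real.log (2 + Λ)) + D1 * Q) * a ^ 2 := by
    have h1 := hmain.trans (add_le_add hfar hgint)
    linarith
  rw [← ha2, ← hb2]
  have h2 : ∫ x in cube, stretchRate v x ≤ (κ / 2 + ε) * (ν * b ^ 2)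
      + (108 / m2 * (R * E) + 4 * m1 / m2 * L * (Λ * Real.log (2 + Λ)) + D1 / m2 * Q) * a ^ 2 := by
    rw [← mul_le_mul_iff_right₀ hm2p]
    refine htot.trans (le_of_eq ?_)
    field_simp
  refine h2.trans ?_
  have hP1 : 0 ≤ R * E := by positivity
  have hP2 : 0 ≤ Λ * Real.log (2 + Λ) := by positivity
  have hd1 : 0 ≤ 108 / m2 := by positivity
  have hd2 : 0 ≤ 4 * m1 / m2 * L := by positivity
  have hd3 : 0 ≤ D1 / m2 := by positivity
  have h3 : 108 / m2 * (R * E) + 4 * m1 / m2 * L * (Λ * Real.log (2 + Λ)) + D1 / m2 * Q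
      ≤ (108 / m2 + 4 * m1 / m2 * L + D1 / m2) * (R * E + Λ * Real.log (2 + Λ) + Q) :=
    sum_mul_le hd1 hd2 hd3 hP1 hP2 hQ0
  have h4 := mul_le_mul_of_nonneg_right h3 (sq_nonneg a)
  linarith

end Pool.Agent.U570.VP
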