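import Pool.Agent.U570.VP.Ident

/-!
The symmetric form of the enstrophy production.
-/

open MeasureTheory Set Filter Topology
open scoped ContDiff

namespace Pool.Agent.U570.VP

open H459R3.NS
open Pool.Agent.TH340.PS (bmp bmp_cont bmp_compact bmp_nonneg bmp_neg bmp_zero rho sq_le_rho ibp_bmp
  int_bmp pd_coord rho_nonneg rho_neg rho_cont)
open Pool.Agent.W268.NS

/-- the integral over `x` of the two-point expression -/
noncomputable def pairInt (w : V → V) (r : ℝ) (z : V) : ℝ :=
  ∫ x in cube, (z ⬝ᵥ (w (x + r • z) - w x)) * (z ⬝ᵥ crossProduct (w x) (w (x + r • z)))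

/-- the unsymmetric form -/
noncomputable def halfInt (w : V → V) (r : ℝ) (z : V) : ℝ :=
  ∫ x in cube, (z ⬝ᵥ w x) * (z ⬝ᵥ crossProduct (w x) (w (x + r • z)))

section

variable {v : V → V} (hv : ∀ i, SP (fun y => v y i))

theorem vort_apply (i : Fin 3) (x : V) : vort v x i = W v i x := rfl

include hv in
theorem sp_shiftW (i : Fin 3) (y : V) : SP (fun x => vort v (x + y) i) := SP.shift (spW hv i) y

theorem dot3 (a b : V) : a ⬝ᵥ b = a 0 * b 0 + a 1 * b 1 + a 2 * b 2 := by
  simp [dotProduct, Fin.sum_univ_three]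

theorem cross0 (a b : V) : crossProduct a b 0 = a 1 * b 2 - a 2 * b 1 := by simp [cross_apply]
theorem cross1 (a b : V) : crossProduct a b 1 = a 2 * b 0 - a 0 * b 2 := by simp [cross_apply]
theorem cross2 (a b : V) : crossProduct a b 2 = a 0 * b 1 - a 1 * b 0 := by simp [cross_apply]

theorem SP.const_mul {f : V → ℝ} (hf : SP f) (c : ℝ) : SP (fun x => c * f x) where
  smooth := contDiff_const.mul hf.smooth
  per := fun i x => by simp only [hf.per i x]

include hv in
theorem sp_dot (z y : V) : SP (fun x => z ⬝ᵥ vort v (x + y)) := by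
  have e : (fun x => z ⬝ᵥ vort v (x + y)) = fun x => ∑ i, z i * vort v (x + y) i := rfl
  rw [e]
  exact SP.sum fun i _ => SP.const_mul (sp_shiftW hv i y) (z i)

include hv in
theorem sp_cross (z a y : V) :
    SP (fun x => z ⬝ᵥ crossProduct (vort v (x + a)) (vort v (x + y))) := by
  have e : (fun x => z ⬝ᵥ crossProduct (vort v (x + a)) (vort v (x + y))) = fun x =>
      (z 0 * (vort v (x + a) 1 * vort v (x + y) 2 - vort v (x + a) 2 * vort v (x + y) 1)
      + z 1 * (vort v (x + a) 2 * vort v (x + y) 0 - vort v (x + a) 0 * vort v (x + y) 2))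
      + z 2 * (vort v (x + a) 0 * vort v (x + y) 1 - vort v (x + a) 1 * vort v (x + y) 0) := by
    funext x
    rw [dot3, cross0, cross1, cross2]
  rw [e]
  have h := fun i j => (sp_shiftW hv i a).mul (sp_shiftW hv j y)
  exact ((SP.const_mul (SP.sub' (h _ _) (h _ _)) _).add
    (SP.const_mul (SP.sub' (h _ _) (h _ _)) _)).add (SP.const_mul (SP.sub' (h _ _) (h _ _)) _)

include hv in
theorem Qf_eq (r : ℝ) (z : V) : Qf v r z = -halfInt (vort v) r z := by
  unfold Qf halfInt cor
  have h : ∀ i j k, IntegrableOn (fun x => qq v i j x * W v k (x + r • z)) cube := fun i j k =>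
    ((spq hv i j).mul (SP.shift (spW hv k) _)).int
  simp_rw [← integral_const_mul]
  have e1 : ∀ i j : Fin 3, (∫ x in cube, z i * z (j + 1) * (qq v i j x * W v (j + 2) (x + r • z)))
      - ∫ x in cube, z i * z (j + 2) * (qq v i j x * W v (j + 1) (x + r • z))
      = ∫ x in cube, (z i * z (j + 1) * (qq v i j x * W v (j + 2) (x + r • z))
        - z i * z (j + 2) * (qq v i j x * W v (j + 1) (x + r • z))) := fun i j =>
    (integral_sub ((h _ _ _).const_mul _) ((h _ _ _).const_mul _)).symm
  simp_rw [e1]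
  have h2 : ∀ i j : Fin 3, IntegrableOn (fun x =>
      z i * z (j + 1) * (qq v i j x * W v (j + 2) (x + r • z))
        - z i * z (j + 2) * (qq v i j x * W v (j + 1) (x + r • z))) cube := fun i j =>
    ((h _ _ _).const_mul _).sub ((h _ _ _).const_mul _)
  have e2 : ∀ i : Fin 3, (∑ j : Fin 3, ∫ x in cube,
      (z i * z (j + 1) * (qq v i j x * W v (j + 2) (x + r • z))
        - z i * z (j + 2) * (qq v i j x * W v (j + 1) (x + r • z))))
      = ∫ x in cube, ∑ j : Fin 3, (z i * z (j + 1) * (qq v i j x * W v (j + 2) (x + r • z))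
        - z i * z (j + 2) * (qq v i j x * W v (j + 1) (x + r • z))) := fun i =>
    (integral_finsetSum _ fun j _ => h2 i j).symm
  simp_rw [e2]
  rw [← integral_finsetSum _ fun i _ => integrable_finsetSum _ fun j _ => h2 i j, ← integral_neg]
  congr 1
  funext x
  rw [dot3, dot3, cross0, cross1, cross2]
  simp only [Fin.sum_univ_three, qq]
  simp only [show (0 : Fin 3) + 1 = 1 from rfl, show (0 : Fin 3) + 2 = 2 from rfl,
      show (1 : Fin 3) + 1 = 2 from rfl, show (1 : Fin 3) + 2 = 0 from rfl,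
      show (2 : Fin 3) + 1 = 0 from rfl, show (2 : Fin 3) + 2 = 1 from rfl, W]
  ring

include hv in
theorem halfInt_neg (r : ℝ) (z : V) : halfInt (vort v) r (-z)
    = -∫ x in cube, (z ⬝ᵥ vort v (x + r • z)) * (z ⬝ᵥ crossProduct (vort v x) (vort v (x + r • z))) := by
  unfold halfInt
  have hp : Per (fun x => ((-z) ⬝ᵥ vort v x) *
      ((-z) ⬝ᵥ crossProduct (vort v x) (vort v (x + r • (-z))))) := by
    have h1 := sp_dot hv (-z) 0
    have h2 := sp_cross hv (-z) 0 (r • (-z))
    have h3 := (h1.mul h2).per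
    simpa using h3
  rw [← Pool.Agent.R210.int_shift hp (r • z), ← integral_neg]
  congr 1
  funext x
  have e : x + r • z + r • -z = x := by simp
  rw [e]
  simp only [dot3, cross0, cross1, cross2, Pi.neg_apply]
  ring

include hv in
theorem half_sym (r : ℝ) (z : V) :
    Qf v r z + Qf v r (-z) = pairInt (vort v) r z := by
  rw [Qf_eq hv, Qf_eq hv, halfInt_neg hv]
  unfold halfInt pairInt
  have h1 := ((sp_dot hv z 0).mul (sp_cross hv z 0 (r • z))).int
  have h2 := ((sp_dot hv z (r • z)).mul (sp_cross hv z 0 (r • z))).int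
  simp only [add_zero] at h1 h2
  have h3 : IntegrableOn (fun x => -(z ⬝ᵥ vort v x *
      z ⬝ᵥ (crossProduct (vort v x)) (vort v (x + r • z)))) cube := h1.neg
  rw [neg_neg, ← integral_neg, ← integral_add h3 h2]
  congr 1
  funext x
  simp only [dot3, cross0, cross1, cross2, Pi.sub_apply]
  ring

include hv in
theorem Qf_cont (r : ℝ) : Continuous (Qf v r) := by
  have hc : ∀ i j k, SP (cor (qq v i j) (W v k)) := fun i j k => sp_cor (spq hv i j) (spW hv k)
  have hk : ∀ i j k, Continuous fun z : V => cor (qq v i j) (W v k) (r • z) := fun i j k =>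
    (contDiff_dil (hc i j k).smooth r).continuous
  have hm : ∀ (a b i j k : Fin 3), Continuous fun z : V =>
      z a * z b * cor (qq v i j) (W v k) (r • z) := fun a b i j k =>
    ((continuous_apply a).mul (continuous_apply b)).mul (hk i j k)
  unfold Qf
  exact continuous_finsetSum _ fun i _ => continuous_finsetSum _ fun j _ =>
    (hm _ _ _ _ _).sub (hm _ _ _ _ _)

include hv in
theorem pairInt_cont (r : ℝ) : Continuous (pairInt (vort v) r) := by
  have e : pairInt (vort v) r = fun z => Qf v r z + Qf v r (-z) :=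
    funext fun z => (half_sym hv r z).symm
  rw [e]
  exact (Qf_cont hv r).add ((Qf_cont hv r).comp continuous_neg)

include hv in
theorem int_Qf (r : ℝ) : ∫ z, bmp 1 1 z * Qf v r z
    = 1 / 2 * ∫ z, bmp 1 1 z * pairInt (vort v) r z := by
  have h1 : ∫ z, bmp 1 1 z * Qf v r (-z) = ∫ z, bmp 1 1 z * Qf v r z := by
    have h := integral_neg_eq_self (fun z : V => bmp 1 1 z * Qf v r z) volume
    simp_rw [bmp_neg] at h
    exact h
  have h2 : ∫ z, bmp 1 1 z * pairInt (vort v) r z
      = (∫ z, bmp 1 1 z * Qf v r z) + ∫ z, bmp 1 1 z * Qf v r (-z) := by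
    have i1 : Integrable fun z : V => bmp 1 1 z * Qf v r z := int_bmp 0 1 (Qf_cont hv r)
    have i2 : Integrable fun z : V => bmp 1 1 z * Qf v r (-z) :=
      int_bmp 0 1 (f := fun z => Qf v r (-z)) ((Qf_cont hv r).comp continuous_neg)
    rw [← integral_add i1 i2]
    congr 1
    funext z
    rw [← half_sym hv]
    ring
  rw [h2, h1]
  ring

include hv in
theorem psi_hasDerivAt' (hdiv : ∀ x, ∑ i, pd i (fun y => v y i) x = 0) {r : ℝ} (hr : r ≠ 0) :
    HasDerivAt (psi v) (-(2 / r * ∫ z, bmp 1 1 z * pairInt (vort v) r z)) r := by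
  have h := psi_hasDerivAt hv hdiv hr
  rw [int_Qf hv] at h
  convert h using 1
  ring

include hv in
theorem psi_differentiable : Differentiable ℝ (psi v) := fun r => by
  have h : HasDerivAt (psi v) (∑ i, ∑ j, (r / 6 * ∫ z, bmp 3 1 z *
      lap (cor (qq v i j) (pd i (fun y => v y j))) (r • z))) r :=
    HasDerivAt.fun_sum fun i _ => HasDerivAt.fun_sum fun j _ =>
      avg_hasDerivAt (sp_cor (spq hv i j) ((hv j).pd i)) r
  exact h.differentiableAt

include hv in
theorem psi_zero : psi v 0 = (∫ z, bmp 2 1 z) * ∫ x in cube, stretchRate v x := by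
  unfold psi
  simp only [zero_smul]
  simp_rw [integral_mul_const, ← Finset.mul_sum]
  congr 1
  unfold cor
  simp only [add_zero]
  have h : ∀ i j : Fin 3, IntegrableOn (fun x => qq v i j x * pd i (fun y => v y j) x) cube :=
    fun i j => ((spq hv i j).mul ((hv j).pd i)).int
  have e2 : ∀ i : Fin 3, (∑ j : Fin 3, ∫ x in cube, qq v i j x * pd i (fun y => v y j) x)
      = ∫ x in cube, ∑ j : Fin 3, qq v i j x * pd i (fun y => v y j) x := fun i =>
    (integral_finsetSum _ fun j _ => h i j).symm
  simp_rw [e2]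
  rw [← integral_finsetSum _ fun i _ => integrable_finsetSum _ fun j _ => h i j]
  congr 1
  funext x
  unfold stretchRate qq W gradM
  refine Finset.sum_congr rfl fun i _ => Finset.sum_congr rfl fun j _ => ?_
  simp only [Matrix.of_apply]
  ring

include hv in
/-- The enstrophy production is bounded by the integral over pairs. -/
theorem prod_le (hdiv : ∀ x, ∑ i, pd i (fun y => v y i) x = 0) {ρ : ℝ} (hρ : 0 ≤ ρ) {g : ℝ → ℝ}
    (hg : IntegrableOn g (Icc 0 ρ))
    (hle : ∀ r ∈ Ioo 0 ρ, 2 / r * ∫ z, bmp 1 1 z * pairInt (vort v) r z ≤ g r) :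
    (∫ z, bmp 2 1 z) * ∫ x in cube, stretchRate v x ≤ psi v ρ + ∫ r in (0 : ℝ)..ρ, g r := by
  have h := intervalIntegral.sub_le_integral_of_hasDeriv_right_of_le (g := fun r => -psi v r)
    (g' := fun r => 2 / r * ∫ z, bmp 1 1 z * pairInt (vort v) r z) (φ := g) hρ
    ((psi_differentiable hv).continuous.neg.continuousOn)
    (fun r hr => by
      have h := (psi_hasDerivAt' hv hdiv hr.1.ne').neg
      rw [neg_neg] at h
      exact h.hasDerivWithinAt) hg hle
  rw [← psi_zero hv]
  linarith

end

end Pool.Agent.U570.VP
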