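import Pool.Agent.U570.VP.Far

/-!
Norms of the vorticity and of its increments.
-/

open MeasureTheory Set Filter Topology
open scoped ContDiff

namespace Pool.Agent.U570.VP

open H459R3.NS
open Pool.Agent.TH340.PS (bmp bmp_cont bmp_compact bmp_nonneg bmp_neg bmp_zero rho sq_le_rho ibp_bmp
  int_bmp pd_coord rho_nonneg rho_neg rho_cont)
open Pool.Agent.W268.NS

/-- the curl of a field given by its components -/
noncomputable def crl (a : Fin 3 → V → ℝ) (i : Fin 3) (x : V) : ℝ :=
  pd (i + 1) (a (i + 2)) x - pd (i + 2) (a (i + 1)) x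

theorem crl_sq {a : Fin 3 → V → ℝ} (ha : ∀ i, SP (a i)) (hdiv : ∀ x, ∑ i, pd i (a i) x = 0) :
    ∑ i, ∫ x in cube, crl a i x ^ 2 = ∑ i, ∑ j, ∫ x in cube, pd j (a i) x ^ 2 := by
  have hp : ∀ i j, SP (pd j (a i)) := fun i j => (ha i).pd j
  have hsq : ∀ i j, IntegrableOn (fun x => pd j (a i) x ^ 2) cube := fun i j =>
    integrableOn_cube ((hp i j).cont.pow 2)
  have hm := fun i j (b c : Fin 3) => int_minor (ha b) (ha c) i j
  have hmi : ∀ i j (b c : Fin 3), IntegrableOn
      (fun x => pd i (a b) x * pd j (a c) x - pd j (a b) x * pd i (a c) x) cube := fun i j b c =>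
    (SP.sub' ((hp b i).mul (hp c j)) ((hp b j).mul (hp c i))).int
  have hcrl : ∀ i, IntegrableOn (fun x => crl a i x ^ 2) cube := fun i =>
    integrableOn_cube (((hp _ _).cont.sub (hp _ _).cont).pow 2)
  have e1 : ∑ i, ∫ x in cube, crl a i x ^ 2 = ∫ x in cube, ∑ i, crl a i x ^ 2 :=
    (integral_finsetSum _ fun i _ => hcrl i).symm
  have e2 : ∑ i, ∑ j, ∫ x in cube, pd j (a i) x ^ 2
      = ∫ x in cube, ∑ i, ∑ j, pd j (a i) x ^ 2 := by
    rw [integral_finsetSum _ fun i _ => integrable_finsetSum _ fun j _ => hsq i j]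
    refine Finset.sum_congr rfl fun i _ => ?_
    rw [integral_finsetSum _ fun j _ => hsq i j]
  rw [e1, e2]
  have h0 : ∫ x in cube, (2 * (((pd 0 (a 0) x * pd 1 (a 1) x - pd 1 (a 0) x * pd 0 (a 1) x)
      + (pd 1 (a 1) x * pd 2 (a 2) x - pd 2 (a 1) x * pd 1 (a 2) x))
      + (pd 2 (a 2) x * pd 0 (a 0) x - pd 0 (a 2) x * pd 2 (a 0) x))) = 0 := by
    have i1 := hmi 0 1 0 1
    have i2 := hmi 1 2 1 2
    have i3 := hmi 2 0 2 0
    have i12 : IntegrableOn (fun x =>
      (pd 0 (a 0) x * pd 1 (a 1) x - pd 1 (a 0) x * pd 0 (a 1) x)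
      + (pd 1 (a 1) x * pd 2 (a 2) x - pd 2 (a 1) x * pd 1 (a 2) x)) cube := i1.add i2
    rw [integral_const_mul, integral_add i12 i3, integral_add i1 i2, hm, hm, hm]
    ring
  rw [← sub_eq_zero, ← integral_sub (integrable_finsetSum _ fun i _ => hcrl i)
    (integrable_finsetSum _ fun i _ => integrable_finsetSum _ fun j _ => hsq i j)]
  rw [← h0]
  congr 1
  funext x
  have hd := hdiv x
  rw [Fin.sum_univ_three] at hd
  simp only [Fin.sum_univ_three, crl]
  simp only [show (0 : Fin 3) + 1 = 1 from rfl, show (0 : Fin 3) + 2 = 2 from rfl,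
      show (1 : Fin 3) + 1 = 2 from rfl, show (1 : Fin 3) + 2 = 0 from rfl,
      show (2 : Fin 3) + 1 = 0 from rfl, show (2 : Fin 3) + 2 = 1 from rfl]
  have h2 : (pd 0 (a 0) x + pd 1 (a 1) x + pd 2 (a 2) x) ^ 2 = 0 := by rw [hd]; ring
  linear_combination (-1 : ℝ) * h2

section

variable {v : V → V} (hv : ∀ i, SP (fun y => v y i))
  (hdiv : ∀ x, ∑ i, pd i (fun y => v y i) x = 0)

theorem W_crl (i : Fin 3) (x : V) : W v i x = crl (fun i y => v y i) i x := W_eq i x

include hv hdiv in
theorem enst_eq : ∑ i, ∫ x in cube, W v i x ^ 2 = enstrophy v := by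
  simp_rw [W_crl]
  rw [crl_sq hv hdiv]
  rfl

include hv hdiv in
theorem palin_eq : ∑ i, ∑ j, ∫ x in cube, pd j (W v i) x ^ 2 = palin v := by
  -- apply the identity to the derivatives of the velocity
  have hW : ∀ i, W v i = fun x => pd (i + 1) (fun y => v y (i + 2)) x
    - pd (i + 2) (fun y => v y (i + 1)) x := fun i => funext fun x => W_eq i x
  have e1 : ∀ i j x, pd j (W v i) x = crl (fun i => pd j (fun y => v y i)) i x := by
    intro i j x
    rw [hW, pd_sub ((hv _).pd _) ((hv _).pd _)]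
    unfold crl
    rw [pd_comm (hv _) j (i + 1), pd_comm (hv _) j (i + 2)]
  have hd : ∀ j x, ∑ i, pd i (pd j (fun y => v y i)) x = 0 := by
    intro j x
    have e3 : pd j (fun x => ∑ i, pd i (fun y => v y i) x) x = 0 := by
      have : (fun x => ∑ i, pd i (fun y => v y i) x) = fun _ => (0 : ℝ) := funext hdiv
      rw [this]
      simp [pd]
    rw [pd_sum fun i _ => (hv i).pd i] at e3
    rw [← e3]
    exact Finset.sum_congr rfl fun i _ => congrFun (pd_comm (hv i) i j) x
  rw [Finset.sum_comm]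
  simp_rw [e1]
  have e2 : ∀ j, ∑ i, ∫ x in cube, crl (fun i => pd j (fun y => v y i)) i x ^ 2
      = ∑ i, ∑ l, ∫ x in cube, pd l (pd j (fun y => v y i)) x ^ 2 := fun j =>
    crl_sq (fun i => (hv i).pd j) (hd j)
  simp_rw [e2]
  have h := sum_hess hv
  unfold palin
  rw [← h, Finset.sum_comm]
  refine Finset.sum_congr rfl fun i _ => Finset.sum_congr rfl fun j _ =>
    Finset.sum_congr rfl fun l _ => ?_
  rw [← fr_pd (hv i), ← fr_pd ((hv i).pd j), n2_fr (((hv i).pd j).pd l)]

end

/-- increments -/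
theorem diff_le {g : V → ℝ} (hg : SP g) (y : V) :
    ∫ x in cube, (g (x + y) - g x) ^ 2 ≤ ∫ x in cube, (∑ j, y j * pd j g x) ^ 2 := by
  set D : V → ℝ := fun x => ∑ j, y j * pd j g x with hD
  have hDs : SP D := SP.sum fun j _ => SP.const_mul (hg.pd j) (y j)
  have hfin : IsFiniteMeasure (volume.restrict (Ioc (0 : ℝ) 1)) := ⟨by simp⟩
  have hcj : Continuous fun p : V × ℝ => D (p.1 + p.2 • y) ^ 2 := by
    have : Continuous fun p : V × ℝ => p.1 + p.2 • y := by fun_prop
    exact (hDs.cont.comp this).pow 2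
  have h1 : ∀ x, (g (x + y) - g x) ^ 2 ≤ ∫ s in Ioc (0 : ℝ) 1, D (x + s • y) ^ 2 := by
    intro x
    have hc : Continuous fun s : ℝ => D (x + s • y) := by
      have : Continuous fun s : ℝ => x + s • y := by fun_prop
      exact hDs.cont.comp this
    have hd : ∀ s ∈ uIcc (0 : ℝ) 1, HasDerivAt (fun s : ℝ => g (x + s • y)) (D (x + s • y)) s := by
      intro s _
      have a1 : HasFDerivAt g (fderiv ℝ g (x + s • y)) (x + s • y) := (hg.diff _).hasFDerivAt
      have a2 : HasDerivAt (fun s : ℝ => x + s • y) y s := by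
        simpa using ((hasDerivAt_id s).smul_const y).const_add x
      have a3 := a1.comp_hasDerivAt s a2
      rw [fderiv_apply_eq] at a3
      exact a3
    have h2 := intervalIntegral.integral_eq_sub_of_hasDerivAt hd (hc.intervalIntegrable 0 1)
    simp only [one_smul, zero_smul, add_zero] at h2
    rw [← h2, intervalIntegral.integral_of_le zero_le_one]
    have h3 := cs_fin (μ := volume.restrict (Ioc (0 : ℝ) 1)) (h := fun s => D (x + s • y))
      (hc.continuousOn.integrableOn_Icc.mono_set Ioc_subset_Icc_self)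
      ((hc.pow 2).continuousOn.integrableOn_Icc.mono_set Ioc_subset_Icc_self)
    have h4 : (volume.restrict (Ioc (0 : ℝ) 1)).real univ = 1 := by simp [measureReal_def]
    rw [h4, one_mul] at h3
    refine le_trans ?_ h3
    rw [← sq_abs (∫ s in Ioc (0 : ℝ) 1, D (x + s • y))]
    exact pow_le_pow_left₀ (abs_nonneg _) (abs_integral_le_integral_abs) 2
  have hi : IntegrableOn (fun x => ∫ s in Ioc (0 : ℝ) 1, D (x + s • y) ^ 2) cube := by
    refine integrableOn_cube ?_
    have : (fun x => ∫ s in Ioc (0 : ℝ) 1, D (x + s • y) ^ 2)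
        = fun x => ∫ s in Icc (0 : ℝ) 1, D (x + s • y) ^ 2 := by
      funext x
      rw [integral_Icc_eq_integral_Ioc]
    rw [this]
    exact continuous_parametric_integral_of_continuous hcj isCompact_Icc
  have h5 : ∫ x in cube, (g (x + y) - g x) ^ 2
      ≤ ∫ x in cube, ∫ s in Ioc (0 : ℝ) 1, D (x + s • y) ^ 2 :=
    integral_mono_of_nonneg (Eventually.of_forall fun x => sq_nonneg _) hi
      (Eventually.of_forall h1)
  refine h5.trans (le_of_eq ?_)
  have hprod : Integrable (fun p : V × ℝ => D (p.1 + p.2 • y) ^ 2)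
      ((volume.restrict cube).prod (volume.restrict (Ioc (0 : ℝ) 1))) := by
    have h6 : IntegrableOn (fun p : V × ℝ => D (p.1 + p.2 • y) ^ 2) (cube ×ˢ Icc (0 : ℝ) 1)
        (volume.prod volume) := hcj.continuousOn.integrableOn_compact
          ((isCompact_Icc).prod isCompact_Icc)
    have h7 := h6.mono_set (t := cube ×ˢ Icc (0 : ℝ) 1) (s := cube ×ˢ Ioc (0 : ℝ) 1)
      (prod_mono le_rfl Ioc_subset_Icc_self)
    rwa [IntegrableOn, ← Measure.prod_restrict] at h7
  have h8 := integral_integral_swap (f := fun x s => D (x + s • y) ^ 2) hprod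
  rw [h8]
  have hp2 : Per fun x => D x ^ 2 := fun i x => by simp only [hDs.per i x]
  have h9 : ∀ s : ℝ, ∫ x in cube, D (x + s • y) ^ 2 = ∫ x in cube, D x ^ 2 := fun s =>
    Pool.Agent.R210.int_shift hp2 (s • y)
  simp_rw [h9]
  simp [hD]

/-- second moments of the weight -/
theorem int_bmp_ij (j k : Fin 3) : ∫ z, bmp 1 1 z * (z j * z k)
    = if k = j then (∫ z, bmp 2 1 z) / 4 else 0 := by
  have h2 := ibp_bmp 0 1 (f := fun z : V => z k) (by fun_prop) j
  rw [show (0 + 2 : ℕ) = 2 from rfl, show (0 + 1 : ℕ) = 1 from rfl] at h2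
  simp_rw [pd_coord] at h2
  push_cast at h2
  split_ifs with h
  · rw [if_pos h] at h2
    simp only [mul_one] at h2
    linarith
  · rw [if_neg h] at h2
    simp only [mul_zero, integral_zero] at h2
    linarith

section

variable {v : V → V} (hv : ∀ i, SP (fun y => v y i))
  (hdiv : ∀ x, ∑ i, pd i (fun y => v y i) x = 0)

/-- the integral of the squares of the increments -/
noncomputable def D2 (v : V → V) (r : ℝ) (z : V) : ℝ :=
  ∑ i, ∫ x in cube, (W v i (x + r • z) - W v i x) ^ 2

include hv in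
theorem D2_cont (r : ℝ) : Continuous (D2 v r) := by
  unfold D2
  refine continuous_finsetSum _ fun i _ => ?_
  have hj : Continuous fun p : V × V => (W v i (p.2 + r • p.1) - W v i p.2) ^ 2 :=
    (((spW hv i).cont.comp (cont_pair r)).sub ((spW hv i).cont.comp continuous_snd)).pow 2
  exact continuous_parametric_integral_of_continuous hj isCompact_Icc

theorem D2_nonneg (r : ℝ) (z : V) : 0 ≤ D2 v r z :=
  Finset.sum_nonneg fun _ _ => integral_nonneg fun _ => sq_nonneg _

include hv hdiv in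
theorem D2_le (r : ℝ) (z : V) : D2 v r z ≤ 4 * enstrophy v := by
  rw [← enst_eq hv hdiv, D2, Finset.mul_sum]
  refine Finset.sum_le_sum fun i _ => ?_
  have h1 : IntegrableOn (fun x => W v i (x + r • z) ^ 2) cube :=
    integrableOn_cube (((SP.shift (spW hv i) (r • z)).cont).pow 2)
  have h2 : IntegrableOn (fun x => W v i x ^ 2) cube := integrableOn_cube ((spW hv i).cont.pow 2)
  have h3 : ∫ x in cube, (W v i (x + r • z) - W v i x) ^ 2
      ≤ ∫ x in cube, (2 * W v i (x + r • z) ^ 2 + 2 * W v i x ^ 2) := by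
    refine integral_mono_of_nonneg (Eventually.of_forall fun x => sq_nonneg _)
      ((h1.const_mul 2).add (h2.const_mul 2)) (Eventually.of_forall fun x => ?_)
    simp only
    nlinarith [sq_nonneg (W v i (x + r • z) + W v i x)]
  rw [integral_add (h1.const_mul 2) (h2.const_mul 2), integral_const_mul, integral_const_mul] at h3
  have hp2 : Per fun x => W v i x ^ 2 := fun j x => by simp only [(spW hv i).per j x]
  have h4 : ∫ x in cube, W v i (x + r • z) ^ 2 = ∫ x in cube, W v i x ^ 2 :=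
    Pool.Agent.R210.int_shift hp2 (r • z)
  rw [h4] at h3
  linarith

include hv hdiv in
theorem int_D2_le (r : ℝ) :
    ∫ z, bmp 1 1 z * D2 v r z ≤ r ^ 2 * ((∫ z, bmp 2 1 z) / 4 * palin v) := by
  have hpp : ∀ i j k, IntegrableOn (fun x => pd j (W v i) x * pd k (W v i) x) cube := fun i j k =>
    (((spW hv i).pd j).mul ((spW hv i).pd k)).int
  have e0 : ∀ (i : Fin 3) (z : V), ∫ x in cube, (∑ j, (r • z) j * pd j (W v i) x) ^ 2
      = r ^ 2 * ∑ j, ∑ k, z j * z k * ∫ x in cube, pd j (W v i) x * pd k (W v i) x := by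
    intro i z
    have e1 : ∀ x, (∑ j, (r • z) j * pd j (W v i) x) ^ 2
        = ∑ j, ∑ k, r ^ 2 * (z j * z k) * (pd j (W v i) x * pd k (W v i) x) := by
      intro x
      rw [sq, Finset.sum_mul_sum]
      refine Finset.sum_congr rfl fun j _ => Finset.sum_congr rfl fun k _ => ?_
      simp only [Pi.smul_apply, smul_eq_mul]
      ring
    simp_rw [e1]
    rw [integral_finsetSum _ fun j _ => integrable_finsetSum _ fun k _ => (hpp i j k).const_mul _,
      Finset.mul_sum]
    refine Finset.sum_congr rfl fun j _ => ?_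
    rw [integral_finsetSum _ fun k _ => (hpp i j k).const_mul _, Finset.mul_sum]
    refine Finset.sum_congr rfl fun k _ => ?_
    rw [integral_const_mul]
    ring
  have h1 : ∀ z, D2 v r z ≤ ∑ i, r ^ 2 * ∑ j, ∑ k, z j * z k *
      ∫ x in cube, pd j (W v i) x * pd k (W v i) x := by
    intro z
    unfold D2
    refine Finset.sum_le_sum fun i _ => ?_
    rw [← e0]
    exact diff_le (spW hv i) (r • z)
  have hc : ∀ i j k : Fin 3, Continuous fun z : V => r ^ 2 * (z j * z k *
      ∫ x in cube, pd j (W v i) x * pd k (W v i) x) := fun i j k => by fun_prop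
  have h2 : ∫ z, bmp 1 1 z * D2 v r z ≤ ∫ z, bmp 1 1 z * ∑ i, ∑ j, ∑ k, r ^ 2 * (z j * z k *
      ∫ x in cube, pd j (W v i) x * pd k (W v i) x) := by
    refine integral_mono (int_bmp 0 1 (D2_cont hv r)) (int_bmp 0 1
      (continuous_finsetSum _ fun i _ => continuous_finsetSum _ fun j _ =>
        continuous_finsetSum _ fun k _ => hc i j k)) fun z => ?_
    refine mul_le_mul_of_nonneg_left ((h1 z).trans (le_of_eq ?_)) (bmp_nonneg _ _ _)
    refine Finset.sum_congr rfl fun i _ => ?_
    rw [Finset.mul_sum]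
    refine Finset.sum_congr rfl fun j _ => ?_
    rw [Finset.mul_sum]
  refine h2.trans (le_of_eq ?_)
  simp_rw [Finset.mul_sum]
  rw [integral_finsetSum _ fun i _ => integrable_finsetSum _ fun j _ =>
    integrable_finsetSum _ fun k _ => int_bmp 0 1 (hc i j k), ← palin_eq hv hdiv]
  have e5 : r ^ 2 * ((∫ z : V, bmp 2 1 z) / 4 * ∑ i, ∑ j, ∫ x in cube, pd j (W v i) x ^ 2)
      = ∑ i, ∑ j, r ^ 2 * ((∫ z : V, bmp 2 1 z) / 4 * ∫ x in cube, pd j (W v i) x ^ 2) := by
    simp_rw [Finset.mul_sum]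
  rw [e5]
  refine Finset.sum_congr rfl fun i _ => ?_
  rw [integral_finsetSum _ fun j _ => integrable_finsetSum _ fun k _ => int_bmp 0 1 (hc i j k)]
  refine Finset.sum_congr rfl fun j _ => ?_
  rw [integral_finsetSum _ fun k _ => int_bmp 0 1 (hc i j k)]
  have e3 : ∀ k : Fin 3, ∫ z : V, bmp 1 1 z * (r ^ 2 * (z j * z k *
      ∫ x in cube, pd j (W v i) x * pd k (W v i) x))
      = r ^ 2 * (if k = j then (∫ z : V, bmp 2 1 z) / 4 else 0) *
        ∫ x in cube, pd j (W v i) x * pd k (W v i) x := by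
    intro k
    rw [← int_bmp_ij]
    generalize ∫ x in cube, pd j (W v i) x * pd k (W v i) x = X
    rw [← integral_const_mul, ← integral_mul_const]
    congr 1
    funext z
    ring
  simp_rw [e3]
  rw [Finset.sum_eq_single j]
  · rw [if_pos rfl]
    have : ∀ x : V, pd j (W v i) x * pd j (W v i) x = pd j (W v i) x ^ 2 := fun x => by ring
    simp_rw [this]
    ring
  · intro k _ hk
    rw [if_neg hk]
    ring
  · intro h
    exact absurd (Finset.mem_univ j) h

theorem int_bmp2_pos : 0 < ∫ z : V, bmp 2 1 z := by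
  refine (integral_pos_iff_support_of_nonneg (fun z => bmp_nonneg _ _ _) ?_).2 ?_
  · have := int_bmp 1 1 (f := fun _ => 1) continuous_const
    simpa using this
  · have hopen : IsOpen (Function.support fun z : V => bmp 2 1 z) :=
      (bmp_cont 2 1).isOpen_support
    refine hopen.measure_pos _ ⟨0, ?_⟩
    simp [bmp, rho]

end

end Pool.Agent.U570.VP
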